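import Pool.Agent.NH99.AL.Stm

set_option autoImplicit false

/-!
# Project AL, job 2: bounds one step beyond a good box
-/

namespace Pool.Agent.NH99.AL

open Finset
open Pool.Agent.NH43.AD

namespace Bey

variable {d : ℕ}

theorem up_empty (r : Ce d) : up ∅ r = r := by
  funext i
  simp [up]

theorem up_insert (k : Fin d) (V : Finset (Fin d)) (hk : k ∉ V) (r : Ce d) :
    up (insert k V) r = up {k} (up V r) := by
  funext i
  unfold up
  by_cases hi : i = k
  · subst hi
    simp [hk]
  · simp [hi]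

theorem om_le {X : Fin d → ℕ → ℝ} {y : Ce d → ℝ} {k : Fin d} {s : Ce d}
    (hX : X k (s k) = 1 ∨ X k (s k) = -1) (hb : |be X y k s| ≤ 1 / 2) : |om X y k s| ≤ 2 := by
  unfold om
  rw [abs_le] at hb
  have h1 : |X k (s k)| = 1 := by
    rcases hX with h | h <;> rw [h] <;> simp
  have h2 : 1 / 2 ≤ 1 + X k (s k) * be X y k s := by
    rcases hX with h | h <;> rw [h] <;> linarith [hb.1, hb.2]
  rw [abs_div, h1, abs_of_pos (by linarith), div_le_iff₀ (by linarith)]
  linarith

/-- the induction over the directions -/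
theorem claim (hL : S_LAW) (hE : S_EXB) (hd : 2 ≤ d) {X : Fin d → ℕ → ℝ} {y : Ce d → ℝ} {b B : ℝ}
    (hX : ∀ i v, X i v = 1 ∨ X i v = -1) (hb : 0 ≤ b)
    (hB : B = 1 + 2 * (4 * ((d : ℝ) + 1)) ^ (2 * d)) (hBb : 2 * B ^ d * b ≤ 1) {r : Ce d}
    (hpos : ∀ U : Finset (Fin d), DD y (up U r) ≠ 0)
    (h0 : ∀ S : Finset (Fin d), S.Nonempty → |KK X y S r| ≤ b) (V : Finset (Fin d)) :
    ∀ S : Finset (Fin d), S.Nonempty → Disjoint S V → |KK X y S (up V r)| ≤ B ^ V.card * b := by
  have hM0 : 0 ≤ (4 * ((d : ℝ) + 1)) ^ (2 * d) := by positivity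
  have hB1 : 1 ≤ B := by rw [hB]; linarith
  induction V using Finset.induction_on with
  | empty =>
    intro S hS _
    rw [up_empty]
    simpa using h0 S hS
  | insert k V hk ih =>
    intro S hS hd1
    have hkS : k ∉ S := fun h => (Finset.disjoint_left.1 hd1 h) (mem_insert_self k V)
    have hSV : Disjoint S V := hd1.mono_right (subset_insert k V)
    have hv : B ^ V.card ≤ B ^ d := by
      refine pow_le_pow_right₀ hB1 ?_
      have h1 := card_le_univ V
      rwa [Fintype.card_fin] at h1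
    have hvb : B ^ V.card * b ≤ 1 / 2 := by
      have h1 : B ^ V.card * b ≤ B ^ d * b := mul_le_mul_of_nonneg_right hv hb
      nlinarith
    have hvb0 : 0 ≤ B ^ V.card * b := mul_nonneg (pow_nonneg (by linarith) _) hb
    rw [up_insert k V hk]
    have hne1 : DD y (up V r) ≠ 0 := hpos V
    have hne2 : DD y (up {k} (up V r)) ≠ 0 := by
      rw [← up_insert k V hk]
      exact hpos _
    have h5 := (hL d X y hd hX).2.2.2.2.1 S k (up V r) hS hkS hne1 hne2
    rw [h5]
    have hbe : |be X y k (up V r)| ≤ 1 / 2 :=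
      (ih {k} (singleton_nonempty k) (disjoint_singleton_left.2 hk)).trans hvb
    have hom : |om X y k (up V r)| ≤ 2 := om_le (hX k _) hbe
    have h6 := (hE d (fun B' => om X y k (up V r) * KK X y (insert k B') (up V r)) S
      (2 * (B ^ V.card * b)) hS (by linarith) (by linarith) (fun B' hB' _ => by
        have h7 : Disjoint (insert k B') V := by
          rw [disjoint_insert_left]
          exact ⟨hk, hSV.mono_left hB'⟩
        have h8 := ih (insert k B') (insert_nonempty k B') h7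
        rw [abs_mul]
        exact mul_le_mul hom h8 (abs_nonneg _) (by norm_num))).2.2.1
    have h9 : (fun B' : Finset (Fin d) => if B' = ∅ then (1 : ℝ) else
        om X y k (up V r) * KK X y (insert k B') (up V r)) = ph X y k (up V r) := rfl
    rw [h9] at h6
    have h10 := ih S hS hSV
    have h11 := abs_add_le (KK X y S (up V r)) (lo (ph X y k (up V r)) S)
    rw [card_insert_of_notMem hk, pow_succ]
    calc |KK X y S (up V r) + lo (ph X y k (up V r)) S|
        ≤ B ^ V.card * b + 2 * (B ^ V.card * b) * (4 * ((d : ℝ) + 1)) ^ (2 * d) := by linarith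
      _ = B ^ V.card * B * b := by rw [hB]; ring

end Bey

theorem t_BEY (hL : S_LAW) (hP : S_POS) (hE : S_EXB) : S_BEY := by
  intro d hd
  refine ⟨2 * (1 + 2 * (4 * (d + 1)) ^ (2 * d)) ^ d, ?_, ?_⟩
  · have h1 : 1 ≤ (1 + 2 * (4 * (d + 1)) ^ (2 * d)) ^ d := Nat.one_le_pow _ _ (by omega)
    omega
  · intro m η X y b hX hb hC p hp h0 S V r hS hSV hr
    push_cast at hC ⊢
    obtain ⟨hc1, hc2, -⟩ := hp r hr
    have hpos : ∀ U : Finset (Fin d), DD y (up U r) ≠ 0 := fun U => by
      have h1 := ((hP d X y r hd hX hc1 hc2).1 U).1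
      exact ne_of_gt (by linarith)
    have h1 := Bey.claim hL hE hd hX hb rfl hC hpos (fun S hS => h0 S r hS hr) V S hS hSV
    refine h1.trans (mul_le_mul_of_nonneg_right ?_ hb)
    have hM0 : 0 ≤ (4 * ((d : ℝ) + 1)) ^ (2 * d) := by positivity
    have hB1 : (1 : ℝ) ≤ 1 + 2 * (4 * ((d : ℝ) + 1)) ^ (2 * d) := by linarith
    have hv : (1 + 2 * (4 * ((d : ℝ) + 1)) ^ (2 * d)) ^ V.card ≤
        (1 + 2 * (4 * ((d : ℝ) + 1)) ^ (2 * d)) ^ d := by
      refine pow_le_pow_right₀ hB1 ?_
      have h1 := card_le_univ V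
      rwa [Fintype.card_fin] at h1
    have h2 : 0 ≤ (1 + 2 * (4 * ((d : ℝ) + 1)) ^ (2 * d)) ^ d := by positivity
    linarith

end Pool.Agent.NH99.AL
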