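import Pool.Agent.NH99.AL.Stm

set_option autoImplicit false

/-! AL-5: the cumulants on a good box. -/

namespace Pool.Agent.NH99.AL

open Finset
open Pool.Agent.NH43.AD
open Pool.Agent.NH44.AD (cd rhQ etQ S_PFQ S_HBT box HB)

/-- **AL-5.** -/
theorem t_BND (hL : S_LAW) (hH : S_HBT) : S_BND := by
  classical
  intro d n m η X y ρ h hd hnm hX hy hρ hη p hp hg S hS
  have hc := hg p (fun i => le_rfl)
  have hη1 := hη 1 le_rfl (by omega)
  have hh : 0 < h := hη1.1.trans_le hη1.2
  have hm1 : (1 : ℝ) ≤ 3 * ((m : ℝ) + 2) := by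
    have : (0 : ℝ) ≤ m := Nat.cast_nonneg m
    linarith
  have hcd : (1 : ℝ) ≤ cd d m := by
    unfold cd
    exact one_le_pow₀ hm1
  have hP : ∀ i, p i < 2 ^ m := fun i => (hp i).trans_lt hnm
  by_cases hu : S = univ
  · subst hu
    have h4 := (hL d X y hd hX).2.2.2.1 p hc.1.ne'
    rw [h4, abs_mul, Finset.abs_prod]
    have h5 : ∏ i, |X i (p i)| = 1 := by
      refine Finset.prod_eq_one fun i _ => ?_
      rcases hX i (p i) with h | h <;> rw [h] <;> norm_num
    rw [h5, one_mul]
    calc |y p| ≤ h := (hy p).trans hρ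
      _ = 1 * h := (one_mul h).symm
      _ ≤ cd d m * h := mul_le_mul_of_nonneg_right hcd hh.le
  · have h1 := hc.2.2 S hS hu
    have h2 := (hH d m p S hS hP).2.2.2.2.2.1 _ _ h1
    have hmem : p ∈ box p :=
      Fintype.mem_piFinset.2 fun i => Finset.mem_range.2 (Nat.lt_succ_self _)
    have h3 := h2.2 p hmem
    refine h3.trans ?_
    refine mul_le_mul_of_nonneg_left ?_ (zero_le_one.trans hcd)
    refine (hη S.card hS.card_pos ?_).2
    calc S.card ≤ Fintype.card (Fin d) := Finset.card_le_univ S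
      _ = d := Fintype.card_fin d

end Pool.Agent.NH99.AL
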