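import Pool.Agent.NH99.AL.Stm
import Pool.Agent.NH99.FD.Grid
import Pool.Agent.NH99.FD.Fin5

set_option autoImplicit false

/-!
# Project AL: from the grid to all `L_p` norms, every dimension (AL-8)

The same argument as in `Pool/Agent/NH99/WZ/Fin2.lean`, for the statement `S_GRIDL`.
-/

namespace Pool.Agent.NH99.AL

open Finset MeasureTheory
open Pool.Agent.H397R2.SD (E)
open Pool.Agent.W776.GD (Om)
open Pool.Agent.TH973.SD (discw locD transfer measurable_locD)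
open Pool.Agent.NH43.AD

namespace Finl

theorem mm_one_le (n : ℕ) : (1 : ℝ) ≤ (mm n : ℝ) + 1 := by
  have : (0 : ℝ) ≤ (mm n : ℝ) := Nat.cast_nonneg _
  linarith

/-- powers of `mm n + 1` are small -/
theorem pow_small (A : ℕ) : ∃ n₁ : ℕ, ∀ n : ℕ, n₁ ≤ n →
    4 * ((mm n : ℝ) + 1) ^ A ≤ (n : ℝ) + 1 := by
  have h1 := tendsto_pow_const_div_const_pow_of_one_lt A (r := (2 : ℝ)) (by norm_num)
  have h2 := (Filter.tendsto_add_atTop_iff_nat 3).2 h1
  have h3 := h2.eventually (gt_mem_nhds (show (0 : ℝ) < 1 / 64 by norm_num))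
  obtain ⟨k₀, hk₀⟩ := Filter.eventually_atTop.1 h3
  refine ⟨2 ^ (k₀ + 1), fun n hn => ?_⟩
  obtain ⟨k, hk⟩ : ∃ k, k = Nat.log 2 (n + 2) := ⟨_, rfl⟩
  have hkk : k₀ + 1 ≤ k := by
    rw [hk, Nat.le_log_iff_pow_le (by norm_num) (by omega)]
    omega
  have h4 := hk₀ k (by omega)
  have h5 : (2 : ℝ) ^ k ≤ (n : ℝ) + 2 := by
    have : 2 ^ k ≤ n + 2 := by
      rw [hk]
      exact Nat.pow_log_le_self 2 (by omega)
    exact_mod_cast this
  rw [div_lt_iff₀ (by positivity)] at h4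
  have h6 : (mm n : ℝ) + 1 = ((k + 3 : ℕ) : ℝ) := by
    unfold mm
    rw [← hk]
    push_cast
    ring
  rw [h6]
  have h7 : (2 : ℝ) ^ (k + 3) = 8 * 2 ^ k := by rw [pow_add]; ring
  rw [h7] at h4
  have h8 : (2 : ℝ) ≤ 2 ^ k := by
    calc (2 : ℝ) = 2 ^ 1 := (pow_one 2).symm
      _ ≤ 2 ^ k := pow_le_pow_right₀ (by norm_num) (by omega)
  linarith

theorem grid {d A n₀ : ℕ} {c : ℝ} (hc : 0 < c)
    (H : ∀ n : ℕ, n₀ ≤ n → ∀ Mr : ℝ, 1 ≤ Mr → Mr * ((mm n : ℝ) + 1) ^ A ≤ (n : ℝ) + 1 →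
      ∀ K : ℕ, Mr * ((mm n : ℝ) + 1) ^ A ≤ 2 * K + 2 →
      ∀ (ι : Type) (P : Finset ι) (w : ι → ℝ) (V : ℝ) (o : ι → Fin d → ℕ) (u : Fin d → ℝ),
        2 * P.card ≤ 2 ^ n → (2 : ℝ) ^ n ≤ 4 * V → V ≤ 2 ^ n →
        1 ≤ E (fun x : Om d n => (discw P w V o u x /
          (c * (Real.sqrt Mr * ((n : ℝ) + 1) ^ (((d : ℝ) - 1) / 2)))) ^ (2 * K + 2)))
    (m n : ℕ) (hm : m ≠ 0) (hn : n = Nat.log 2 m + 2) (hn0 : n₀ ≤ n) (hn1 : 1000 ≤ n) (K : ℕ)
    (hK1 : ((mm n : ℝ) + 1) ^ A ≤ 2 * K + 2) (hK2 : (2 * K + 2 : ℝ) ≤ (n : ℝ) + 1)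
    (lam : Fin m → ℝ) (ξ : Fin m → Fin d → ℝ) (hξ : ∀ μ, ξ μ ∈ Set.Icc (0 : Fin d → ℝ) 1) :
    ENNReal.ofReal (c * (Real.sqrt (2 * K + 2) * ((n : ℝ) + 1) ^ (((d : ℝ) - 1) / 2)) /
      (m * ((mm n : ℝ) + 1) ^ A)) ≤
      eLpNorm (locD lam ξ) ((2 * K + 2 : ℕ) : ENNReal)
        (volume.restrict (Set.Icc (0 : Fin d → ℝ) 1)) := by
  obtain ⟨f1, f2, f3, f4⟩ := Pool.Agent.NH99.FD.Grid.facts hm hn hn1
  have hN0 : (0 : ℝ) < (n : ℝ) + 1 := by positivity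
  set N : ℝ := (n : ℝ) + 1 with hN
  set e : ℝ := ((d : ℝ) - 1) / 2 with he
  have hm0 : (0 : ℝ) < m := by exact_mod_cast Nat.pos_of_ne_zero hm
  have hP1 : (1 : ℝ) ≤ ((mm n : ℝ) + 1) ^ A := one_le_pow₀ (mm_one_le n)
  set P : ℝ := ((mm n : ℝ) + 1) ^ A with hP
  have hP0 : 0 < P := by linarith
  set Mr : ℝ := (2 * K + 2) / P with hMr
  have hMr1 : 1 ≤ Mr := by
    rw [hMr, le_div_iff₀ hP0]
    linarith
  have hMr3 : Mr * P = 2 * K + 2 := by
    rw [hMr, div_mul_cancel₀ _ hP0.ne']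
  have hNe : 0 < N ^ e := Real.rpow_pos_of_pos hN0 _
  have hsM : 0 < Real.sqrt Mr := Real.sqrt_pos.2 (by linarith)
  have hV0 : 0 < c * (Real.sqrt Mr * N ^ e) := by positivity
  have htr := transfer (d := d) (Nat.pos_of_ne_zero hm) n K (c * (Real.sqrt Mr * N ^ e))
    hV0 lam ξ hξ (fun o u => H n hn0 Mr hMr1 (by rw [hMr3]; exact hK2) K (by rw [hMr3])
      (Fin m) Finset.univ
      (fun μ => (m : ℝ) * lam μ) (m : ℝ) o u (by simpa using f1) (by exact_mod_cast f2) (by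
        have : m ≤ 2 ^ n := by omega
        exact_mod_cast this))
  refine le_trans (ENNReal.ofReal_le_ofReal ?_) htr
  have hsP : Real.sqrt P ≤ P := by
    rw [Real.sqrt_le_left hP0.le]
    nlinarith
  have hsq : Real.sqrt (2 * K + 2) ≤ Real.sqrt Mr * P := by
    rw [← hMr3, Real.sqrt_mul (by linarith)]
    exact mul_le_mul_of_nonneg_left hsP hsM.le
  rw [div_le_div_iff₀ (by positivity) hm0]
  calc c * (Real.sqrt (2 * K + 2) * N ^ e) * m
      ≤ c * ((Real.sqrt Mr * P) * N ^ e) * m := by gcongr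
    _ = c * (Real.sqrt Mr * N ^ e) * (m * P) := by ring

/-- The bound for large `m` and `p`. -/
theorem high {d A n₀ : ℕ} {c : ℝ} (hc : 0 < c) (hd : 3 ≤ d)
    (H : ∀ n : ℕ, n₀ ≤ n → ∀ Mr : ℝ, 1 ≤ Mr → Mr * ((mm n : ℝ) + 1) ^ A ≤ (n : ℝ) + 1 →
      ∀ K : ℕ, Mr * ((mm n : ℝ) + 1) ^ A ≤ 2 * K + 2 →
      ∀ (ι : Type) (P : Finset ι) (w : ι → ℝ) (V : ℝ) (o : ι → Fin d → ℕ) (u : Fin d → ℝ),
        2 * P.card ≤ 2 ^ n → (2 : ℝ) ^ n ≤ 4 * V → V ≤ 2 ^ n →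
        1 ≤ E (fun x : Om d n => (discw P w V o u x /
          (c * (Real.sqrt Mr * ((n : ℝ) + 1) ^ (((d : ℝ) - 1) / 2)))) ^ (2 * K + 2))) :
    ∃ m₀ : ℕ, 3 ≤ m₀ ∧ ∀ m : ℕ, m₀ ≤ m → ∃ P : ℝ, 1 ≤ P ∧
      P ≤ 7 ^ A * (1 + Real.log (Real.log m)) ^ A ∧
      ∀ p : ENNReal, ENNReal.ofReal (4 * P) ≤ p →
      ∀ (lam : Fin m → ℝ) (ξ : Fin m → Fin d → ℝ), (∀ μ, ξ μ ∈ Set.Icc (0 : Fin d → ℝ) 1) →
        ∃ K : ℕ, ((2 * K + 2 : ℕ) : ENNReal) ≤ p ∧
        ENNReal.ofReal (c / 2 * (Real.log m) ^ (((d : ℝ) - 1) / 2) / (m * P)) *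
          min (p ^ (1 / 2 : ℝ)) (ENNReal.ofReal ((Real.log m) ^ (1 / 2 : ℝ))) ≤
          eLpNorm (locD lam ξ) ((2 * K + 2 : ℕ) : ENNReal)
            (volume.restrict (Set.Icc (0 : Fin d → ℝ) 1)) := by
  obtain ⟨n₁, hn₁⟩ := pow_small A
  refine ⟨2 ^ (n₀ + n₁ + 1000), ?_, ?_⟩
  · calc 3 ≤ 2 ^ 2 := by norm_num
      _ ≤ 2 ^ (n₀ + n₁ + 1000) := Nat.pow_le_pow_right (by norm_num) (by omega)
  intro m hm
  have hm0 : m ≠ 0 := by
    have : 0 < 2 ^ (n₀ + n₁ + 1000) := Nat.pos_of_ne_zero (by positivity)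
    omega
  obtain ⟨n, hn⟩ : ∃ n, n = Nat.log 2 m + 2 := ⟨_, rfl⟩
  have hlog : n₀ + n₁ + 1000 ≤ Nat.log 2 m := by
    rw [Nat.le_log_iff_pow_le (by norm_num) hm0]
    exact hm
  have hnn : n₀ ≤ n := by omega
  have hn1 : 1000 ≤ n := by omega
  obtain ⟨f1, f2, f3, f4⟩ := Pool.Agent.NH99.FD.Grid.facts hm0 hn hn1
  have hsmall := hn₁ n (by omega)
  set N : ℝ := (n : ℝ) + 1 with hN
  set L : ℝ := Real.log m with hL
  have hn1R : (1000 : ℝ) ≤ n := by exact_mod_cast hn1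
  have hN0 : 0 < N := by rw [hN]; linarith
  have hN1 : 1 ≤ N := by rw [hN]; linarith
  have hLN : L ≤ N := by rw [hN]; linarith
  have hL400 : 400 ≤ L := by linarith
  have hL0 : 0 < L := by linarith
  have hL1 : 1 ≤ L := by linarith
  have hmR : (0 : ℝ) < m := by exact_mod_cast Nat.pos_of_ne_zero hm0
  have hP1 : (1 : ℝ) ≤ ((mm n : ℝ) + 1) ^ A := one_le_pow₀ (mm_one_le n)
  have hmm : (mm n : ℝ) + 1 ≤ 7 * (1 + Real.log L) := by
    have g1 : (mm n : ℝ) + 1 = (Nat.log 2 (n + 2) : ℝ) + 3 := by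
      unfold mm
      push_cast
      ring
    have g2 : ((2 : ℝ)) ^ (Nat.log 2 (n + 2)) ≤ (n : ℝ) + 2 := by
      exact_mod_cast Nat.pow_log_le_self 2 (by omega : n + 2 ≠ 0)
    have g3 := Real.log_le_log (by positivity) g2
    rw [Real.log_pow] at g3
    have g4 : (n : ℝ) + 2 ≤ 4 * L := by linarith
    have g5 := Real.log_le_log (by linarith) g4
    rw [Real.log_mul (by norm_num) hL0.ne'] at g5
    have g6 : Real.log 4 = 2 * Real.log 2 := by
      rw [show (4 : ℝ) = 2 ^ 2 by norm_num, Real.log_pow]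
      norm_num
    have g7 := Real.log_two_gt_d9
    have g8 := Real.log_two_lt_d9
    have g9 : 0 ≤ Real.log L := Real.log_nonneg hL1
    have g10 : (0 : ℝ) ≤ (Nat.log 2 (n + 2) : ℝ) := Nat.cast_nonneg _
    rw [g1]
    rw [g6] at g5
    nlinarith
  set P : ℝ := ((mm n : ℝ) + 1) ^ A with hP
  have hP0 : 0 < P := by linarith
  refine ⟨P, hP1, ?_, ?_⟩
  · rw [← mul_pow, hP]
    exact pow_le_pow_left₀ (by linarith [mm_one_le n]) hmm A
  intro p hp lam ξ hξ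
  -- the truncated exponent
  set p0 : ENNReal := min p (ENNReal.ofReal N) with hp0
  have hp0top : p0 ≠ ⊤ := ne_top_of_le_ne_top ENNReal.ofReal_ne_top (min_le_right _ _)
  set P0 : ℝ := p0.toReal with hP0'
  have hP0e : ENNReal.ofReal P0 = p0 := ENNReal.ofReal_toReal hp0top
  have hP00 : 0 ≤ P0 := ENNReal.toReal_nonneg
  have hP0X : P0 ≤ N := by
    have : ENNReal.ofReal P0 ≤ ENNReal.ofReal N := by rw [hP0e]; exact min_le_right _ _
    exact (ENNReal.ofReal_le_ofReal_iff hN0.le).1 this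
  have hP0big : 4 * P ≤ P0 := by
    have h1 : ENNReal.ofReal (4 * P) ≤ ENNReal.ofReal P0 := by
      rw [hP0e]
      exact le_min hp (ENNReal.ofReal_le_ofReal hsmall)
    exact (ENNReal.ofReal_le_ofReal_iff hP00).1 h1
  -- the even exponent
  obtain ⟨K, hK⟩ : ∃ K : ℕ, K = ⌊(P0 - 2) / 2⌋₊ := ⟨_, rfl⟩
  have hP08 : 4 ≤ P0 := by linarith
  have hK1 : (K : ℝ) ≤ (P0 - 2) / 2 := by
    rw [hK]
    exact Nat.floor_le (by linarith)
  have hK2 : (P0 - 2) / 2 < K + 1 := by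
    rw [hK]
    exact Nat.lt_floor_add_one _
  have hK3 : (2 * K + 2 : ℝ) ≤ P0 := by linarith
  have hK4 : P0 / 2 ≤ (2 * K + 2 : ℝ) := by linarith
  refine ⟨K, ?_, ?_⟩
  · have : ((2 * K + 2 : ℕ) : ENNReal) = ENNReal.ofReal (2 * K + 2 : ℝ) := by
      rw [← ENNReal.ofReal_natCast]
      push_cast
      rfl
    rw [this]
    calc ENNReal.ofReal (2 * K + 2 : ℝ) ≤ ENNReal.ofReal P0 := ENNReal.ofReal_le_ofReal hK3
      _ = p0 := hP0e
      _ ≤ p := min_le_left _ _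
  · refine le_trans ?_ (grid hc H m n hm0 hn hnn hn1 K (by linarith) (by linarith) lam ξ hξ)
    -- the minimum
    have hmin : min (p ^ (1 / 2 : ℝ)) (ENNReal.ofReal (L ^ (1 / 2 : ℝ))) ≤
        ENNReal.ofReal (Real.sqrt P0) := by
      have h1 : ENNReal.ofReal (Real.sqrt P0) = min (p ^ (1 / 2 : ℝ))
          (ENNReal.ofReal (N ^ (1 / 2 : ℝ))) := by
        rw [Real.sqrt_eq_rpow, ← ENNReal.ofReal_rpow_of_nonneg hP00 (by norm_num), hP0e, hp0,
          ← ENNReal.ofReal_rpow_of_nonneg hN0.le (by norm_num)]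
        exact (ENNReal.monotone_rpow_of_nonneg (by norm_num)).map_min
      rw [h1]
      exact min_le_min le_rfl (ENNReal.ofReal_le_ofReal
        (Real.rpow_le_rpow hL0.le hLN (by norm_num)))
    set e : ℝ := ((d : ℝ) - 1) / 2 with he
    have he0 : 0 ≤ e := by
      have : (3 : ℝ) ≤ d := by exact_mod_cast hd
      rw [he]
      linarith
    have hLe : 0 ≤ L ^ e := Real.rpow_nonneg hL0.le _
    have hc0 : (0 : ℝ) ≤ c / 2 * L ^ e / (m * P) := by positivity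
    calc ENNReal.ofReal (c / 2 * L ^ e / (m * P)) *
          min (p ^ (1 / 2 : ℝ)) (ENNReal.ofReal (L ^ (1 / 2 : ℝ)))
        ≤ ENNReal.ofReal (c / 2 * L ^ e / (m * P)) * ENNReal.ofReal (Real.sqrt P0) := by gcongr
      _ = ENNReal.ofReal (c / 2 * L ^ e / (m * P) * Real.sqrt P0) :=
          (ENNReal.ofReal_mul hc0).symm
      _ ≤ _ := by
        apply ENNReal.ofReal_le_ofReal
        have s1 : L ^ e ≤ N ^ e := Real.rpow_le_rpow hL0.le hLN he0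
        have s2 : Real.sqrt P0 ≤ 2 * Real.sqrt (2 * K + 2) := by
          calc Real.sqrt P0 ≤ Real.sqrt (2 ^ 2 * (2 * K + 2)) :=
                Real.sqrt_le_sqrt (by linarith)
            _ = 2 * Real.sqrt (2 * K + 2) := by
                rw [Real.sqrt_mul (by norm_num), Real.sqrt_sq (by norm_num)]
        have hs0 : 0 ≤ Real.sqrt P0 := Real.sqrt_nonneg _
        calc c / 2 * L ^ e / (m * P) * Real.sqrt P0
            ≤ c / 2 * N ^ e / (m * P) * (2 * Real.sqrt (2 * K + 2)) := by gcongr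
          _ = c * (Real.sqrt (2 * K + 2) * N ^ e) / (m * P) := by ring

end Finl

open Finl in
/-- AL-8: the final statement, from the statement on the grid -/
theorem t_FINL (hG : S_GRIDL) : S_FINL := by
  intro d hd
  obtain ⟨cG, hcG, A, n₀, hA, H⟩ := hG d hd
  obtain ⟨c₁, hc₁, H₁⟩ := Pool.Agent.NH99.FD.Fin5.base d (by omega)
  obtain ⟨m₀, hm₀, H₂⟩ := high hcG hd H
  have hprob := Pool.Agent.NH99.FD.Fin5.isProb d
  set L₀ : ℝ := Real.log m₀ with hL₀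
  have hL₀1 : 1 ≤ L₀ := by
    rw [hL₀, Real.le_log_iff_exp_le (by exact_mod_cast (by omega : 0 < m₀))]
    have h1 : Real.exp 1 < 3 := lt_trans Real.exp_one_lt_d9 (by norm_num)
    have h2 : (3 : ℝ) ≤ m₀ := by exact_mod_cast hm₀
    linarith
  have h7 : (1 : ℝ) ≤ 7 ^ A := one_le_pow₀ (by norm_num)
  set c : ℝ := min (cG / 2 / 7 ^ A) (c₁ / (2 * 7 ^ A + L₀)) with hc
  have hc0 : 0 < c := lt_min (by positivity) (by positivity)
  have hcc : c * (2 * 7 ^ A + L₀) ≤ c₁ := by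
    have : c ≤ c₁ / (2 * 7 ^ A + L₀) := min_le_right _ _
    rwa [le_div_iff₀ (by positivity)] at this
  have hcc' : c * 7 ^ A ≤ cG / 2 := by
    have : c ≤ cG / 2 / 7 ^ A := min_le_left _ _
    rwa [le_div_iff₀ (by positivity)] at this
  refine ⟨c, hc0, A, fun m hm p hp lam ξ hξ => ?_⟩
  have hm3 : (3 : ℝ) ≤ m := by exact_mod_cast hm
  have hmpos : (0 : ℝ) < m := by linarith
  set L : ℝ := Real.log m with hL
  have hL1 : 1 ≤ L := by
    rw [hL, Real.le_log_iff_exp_le hmpos]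
    have h1 : Real.exp 1 < 3 := lt_trans Real.exp_one_lt_d9 (by norm_num)
    linarith
  have hL0 : 0 < L := by linarith
  set e : ℝ := ((d : ℝ) - 1) / 2 with he
  have hLe : 0 ≤ L ^ e := Real.rpow_nonneg hL0.le _
  have hll : 0 ≤ Real.log L := Real.log_nonneg hL1
  have hQ1 : (1 : ℝ) ≤ (1 + Real.log L) ^ A := one_le_pow₀ (by linarith)
  set Q : ℝ := (1 + Real.log L) ^ A with hQ
  have hQ0 : 0 < Q := by linarith
  -- the bounded case
  have small : ∀ t : ℝ, 0 ≤ t → t ≤ (2 * 7 ^ A + L₀) * Q →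
      min (p ^ (1 / 2 : ℝ)) (ENNReal.ofReal (L ^ (1 / 2 : ℝ))) ≤ ENNReal.ofReal t →
      ENNReal.ofReal (c * L ^ e / (m * Q)) *
          min (p ^ (1 / 2 : ℝ)) (ENNReal.ofReal (L ^ (1 / 2 : ℝ))) ≤
        eLpNorm (locD lam ξ) p (volume.restrict (Set.Icc (0 : Fin d → ℝ) 1)) := by
    intro t ht0 ht hmin
    have h1 := H₁ m (by omega) lam ξ hξ p hp
    refine le_trans ?_ h1
    calc ENNReal.ofReal (c * L ^ e / (m * Q)) *
          min (p ^ (1 / 2 : ℝ)) (ENNReal.ofReal (L ^ (1 / 2 : ℝ)))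
        ≤ ENNReal.ofReal (c * L ^ e / (m * Q)) * ENNReal.ofReal t := by gcongr
      _ = ENNReal.ofReal (c * L ^ e / (m * Q) * t) := (ENNReal.ofReal_mul (by positivity)).symm
      _ ≤ ENNReal.ofReal (c₁ * L ^ e / m) := by
          apply ENNReal.ofReal_le_ofReal
          calc c * L ^ e / (m * Q) * t ≤ c * L ^ e / (m * Q) * ((2 * 7 ^ A + L₀) * Q) := by gcongr
            _ = (c * (2 * 7 ^ A + L₀)) * L ^ e / m := by field_simp
            _ ≤ c₁ * L ^ e / m := by gcongr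
  by_cases hmm : m < m₀
  · apply small (L ^ (1 / 2 : ℝ)) (by positivity) _ (min_le_right _ _)
    have h1 : L ≤ L₀ := by
      rw [hL, hL₀]
      apply Real.log_le_log hmpos
      exact_mod_cast hmm.le
    calc L ^ (1 / 2 : ℝ) ≤ L ^ (1 : ℝ) := Real.rpow_le_rpow_of_exponent_le hL1 (by norm_num)
      _ = L := Real.rpow_one L
      _ ≤ L₀ := h1
      _ ≤ (2 * 7 ^ A + L₀) * 1 := by linarith
      _ ≤ (2 * 7 ^ A + L₀) * Q := by
          apply mul_le_mul_of_nonneg_left hQ1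
          linarith
  · rw [not_lt] at hmm
    obtain ⟨P, hP1, hPQ, H₃⟩ := H₂ m hmm
    rw [← hL, ← hQ] at hPQ
    have hP0 : 0 < P := by linarith
    by_cases hp2 : p < ENNReal.ofReal (4 * P)
    · apply small (2 * P) (by positivity) _ _
      · nlinarith
      · refine (min_le_left _ _).trans ?_
        calc p ^ (1 / 2 : ℝ) ≤ (ENNReal.ofReal (4 * P)) ^ (1 / 2 : ℝ) :=
              ENNReal.rpow_le_rpow hp2.le (by norm_num)
          _ = ENNReal.ofReal ((4 * P) ^ (1 / 2 : ℝ)) :=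
              ENNReal.ofReal_rpow_of_nonneg (by positivity) (by norm_num)
          _ ≤ ENNReal.ofReal (2 * P) := by
              apply ENNReal.ofReal_le_ofReal
              rw [← Real.sqrt_eq_rpow, Real.sqrt_le_left (by positivity)]
              nlinarith
    · rw [not_lt] at hp2
      obtain ⟨K, hK1, hK2⟩ := H₃ p hp2 lam ξ hξ
      refine le_trans ?_ (hK2.trans (eLpNorm_le_eLpNorm_of_exponent_le hK1
            (measurable_locD lam ξ).aestronglyMeasurable))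
      gcongr ENNReal.ofReal ?_ * _
      rw [div_le_div_iff₀ (by positivity) (by positivity)]
      calc c * L ^ e * (m * P) ≤ c * L ^ e * (m * (7 ^ A * Q)) := by gcongr
        _ = (c * 7 ^ A) * L ^ e * (m * Q) := by ring
        _ ≤ cG / 2 * L ^ e * (m * Q) := by gcongr

end Pool.Agent.NH99.AL
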