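import Pool.Agent.NH99.AL.Stm
import Pool.Agent.NH99.WZ.StmP

set_option autoImplicit false

/-!
# Project AL, job AL-7: assembly on the grid
-/

namespace Pool.Agent.NH99.AL

open Finset
open Pool.Agent.H397R2.SD (E E_mono E_add E_const)
open Pool.Agent.W776.GD (Om flp rad fE empt)
open Pool.Agent.TH973.SD (discw)
open Pool.Agent.NH43.AD
open Pool.Agent.NH44.AD (cd rhQ etQ S_PFQ S_HBT)

theorem Gridl.pow_sub (z θ : ℝ) (h0 : 0 ≤ θ) (h1 : θ ≤ 1) :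
    |z - 1| ^ (1 + θ) ≤ 2 * (|z| ^ (1 + θ) + 1) := by
  have hz : |z - 1| ≤ |z| + 1 := by
    refine (abs_sub _ _).trans ?_
    simp
  have h2 : |z - 1| ^ (1 + θ) ≤ (|z| + 1) ^ (1 + θ) :=
    Real.rpow_le_rpow (abs_nonneg _) hz (by linarith)
  have hc := (convexOn_rpow (p := 1 + θ) (by linarith)).2
  have h3 := hc (show 2 * |z| ∈ Set.Ici (0 : ℝ) from Set.mem_Ici.2 (by positivity))
    (show (2 : ℝ) ∈ Set.Ici (0 : ℝ) from Set.mem_Ici.2 (by norm_num))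
    (show (0 : ℝ) ≤ 1 / 2 by norm_num) (show (0 : ℝ) ≤ 1 / 2 by norm_num) (by norm_num)
  simp only [smul_eq_mul] at h3
  have e1 : 1 / 2 * (2 * |z|) + 1 / 2 * 2 = |z| + 1 := by ring
  rw [e1] at h3
  have e2 : (2 * |z|) ^ (1 + θ) = 2 ^ (1 + θ) * |z| ^ (1 + θ) :=
    Real.mul_rpow (by norm_num) (abs_nonneg _)
  rw [e2] at h3
  have e3 : (2 : ℝ) ^ (1 + θ) ≤ 4 := by
    calc (2 : ℝ) ^ (1 + θ) ≤ 2 ^ (2 : ℝ) :=
          Real.rpow_le_rpow_of_exponent_le (by norm_num) (by linarith)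
      _ = 4 := by norm_num
  have h4 : 0 ≤ |z| ^ (1 + θ) := Real.rpow_nonneg (abs_nonneg _) _
  nlinarith

theorem t_GRIDL (h1 : S_PFQ) (h2 : S_LPD) (h3 : S_BND) (h4 : S_PAIR) (h5 : S_HYP) (h6 : S_NUML)
    (h7 : Pool.Agent.NH99.WZ.S_HOL) : S_GRIDL := by
  intro d hd
  obtain ⟨CL, hCL1, hL⟩ := h2 d (by omega)
  obtain ⟨c2, C2, hc2, hC2, hP⟩ := h4 d (by omega)
  obtain ⟨C, hC1, hCL, hCC2⟩ : ∃ C : ℕ, 1 ≤ C ∧ CL ≤ C ∧ C2 ≤ (C : ℝ) := by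
    refine ⟨max CL ⌈C2⌉₊, hCL1.trans (le_max_left _ _), le_max_left _ _, ?_⟩
    exact (Nat.le_ceil C2).trans (by exact_mod_cast le_max_right _ _)
  have hCLR : (CL : ℝ) ≤ (C : ℝ) := by exact_mod_cast hCL
  obtain ⟨A₀, hA₀, hPF⟩ := h1 d (2 * C + d + 4) hd
  obtain ⟨A, n₀, hA, hN⟩ := h6 d C A₀ hd hC1 hA₀
  refine ⟨c2 / 19, by positivity, A, n₀, hA, fun n hn Mr hMr hMr2 K hK ι P w V o u hP1 hV1 hV2 => ?_⟩
  obtain ⟨dl, hdl⟩ : ∃ dl, dl = Real.sqrt (Mr / ((n : ℝ) + 1)) := ⟨_, rfl⟩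
  obtain ⟨b, hb⟩ : ∃ b, b = cd d (mm n) * etQ d A₀ n dl 1 := ⟨_, rfl⟩
  obtain ⟨hdl0, hdlA, hn2, hρ, hρη, hCρ, hη, hb0, hCb, hθ2, hθb, hθn, hκ1, hκ2, hρe⟩ :=
    hN n hn Mr hMr hMr2 K hK dl b hdl hb
  obtain ⟨θ, hθ⟩ : ∃ θ : ℝ, θ = 1 / (2 * (K : ℝ) + 1) := ⟨_, rfl⟩
  have hθ0 : 0 ≤ θ := by rw [hθ]; positivity
  rw [← hθ] at hθ2 hθb hθn
  obtain ⟨κ, hκ⟩ : ∃ κ : ℝ, κ = 1 / ((n : ℝ) + 1) ^ (2 * C + d + 4) := ⟨_, rfl⟩
  rw [← hκ] at hκ1 hκ2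
  have hκ0 : 0 ≤ κ := by rw [hκ]; positivity
  have hy := (h5 d n ι P o (by omega)).1
  have hPF' := hPF n dl hdl0 hdlA (Om d n) _ _ _ hy
  rw [← hκ] at hPF'
  have hKK : ∀ (x : Om d n) (p : Ce d), (∀ i, p i ≤ n) →
      Good (mm n) (etQ d A₀ n dl) (Xx (fun i v (x : Om d n) => rad i v x) x)
        (yx (rhQ d n dl) (fun r x => fE P o r x) x) p →
      ∀ S : Finset (Fin d), S.Nonempty →
        |KK (Xx (fun i v (x : Om d n) => rad i v x) x)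
          (yx (rhQ d n dl) (fun r x => fE P o r x) x) S p| ≤ b := by
    intro x p hp hg S hS
    rw [hb]
    refine h3 d n (mm n) (etQ d A₀ n dl) _ _ (rhQ d n dl) (etQ d A₀ n dl 1) (by omega) hn2
      (fun i v => hy.sgn i v x) (fun r => ?_) hρη hη p hp hg S hS
    unfold yx
    rw [abs_mul, abs_of_pos hρ]
    have h8 := hy.le r x
    nlinarith
  have hn0 : (0 : ℝ) ≤ (n : ℝ) := Nat.cast_nonneg n
  have hpow : ((n : ℝ) + 2) ^ CL ≤ ((n : ℝ) + 2) ^ C :=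
    pow_le_pow_right₀ (by linarith) hCL
  have hL8 := hL n (mm n) (etQ d A₀ n dl) (Om d n) _ _ _ (rhQ d n dl) κ b θ hy hκ0 hPF' hb0
    ((mul_le_mul_of_nonneg_right hCLR hb0).trans hCb) hKK hθ0 hθ2
    (by
      refine le_trans ?_ hθb
      gcongr)
    (by
      refine le_trans ?_ hθn
      exact Real.rpow_le_rpow (by positivity) hpow hθ0)
    (by
      refine le_trans ?_ hκ1
      gcongr)
  obtain ⟨Ps, hPs⟩ : ∃ Ps : Om d n → ℝ, Ps = fun x => Psi n (mm n) (etQ d A₀ n dl) (rhQ d n dl)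
    (fun i v (x : Om d n) => rad i v x) (fun r x => fE P o r x) x := ⟨_, rfl⟩
  have hL8' : E (fun x : Om d n => |Ps x| ^ (1 + θ)) ≤ 8 := by rw [hPs]; exact hL8
  have hL3 : E (fun x : Om d n => |Ps x - 1| ^ (1 + θ)) ≤ 18 := by
    have g1 : E (fun x : Om d n => |Ps x - 1| ^ (1 + θ)) ≤
        E (fun x : Om d n => 2 * (|Ps x| ^ (1 + θ) + 1)) :=
      E_mono fun x => Gridl.pow_sub _ θ hθ0 (hθ2.trans (by norm_num))
    have g2 : E (fun x : Om d n => 2 * (|Ps x| ^ (1 + θ) + 1)) =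
        2 * (E (fun x : Om d n => |Ps x| ^ (1 + θ)) + 1) := by
      have g3 : E (fun x : Om d n => 2 * (|Ps x| ^ (1 + θ) + 1)) =
          2 * E (fun x : Om d n => |Ps x| ^ (1 + θ) + 1) := by
        unfold E
        rw [← Finset.mul_sum, mul_div_assoc]
      rw [g3, E_add, E_const]
    rw [g2] at g1
    linarith
  have hpair := hP n (mm n) (etQ d A₀ n dl) ι P w V o u (rhQ d n dl) κ hρ
    ((mul_le_mul_of_nonneg_right hCC2 hρ.le).trans hCρ) hP1 hV1 hV2 hκ0 hκ2 hPF'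
  rw [mul_assoc, hρe] at hpair
  have hpos : 0 < Real.sqrt Mr * ((n : ℝ) + 1) ^ (((d : ℝ) - 1) / 2) := by
    have : 0 < Real.sqrt Mr := Real.sqrt_pos.2 (by linarith)
    positivity
  have hpair' : c2 * (Real.sqrt Mr * ((n : ℝ) + 1) ^ (((d : ℝ) - 1) / 2)) ≤
      E (fun x : Om d n => discw P w V o u x * (Ps x - 1)) := by rw [hPs]; exact hpair
  refine h7 (Om d n) (fun x => discw P w V o u x) (fun x => Ps x - 1)
    (c2 / 19 * (Real.sqrt Mr * ((n : ℝ) + 1) ^ (((d : ℝ) - 1) / 2))) 18 K (by positivity)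
    (by norm_num) ?_ ?_ ?_
  · rw [← hθ]
    exact hL3
  · refine le_trans ?_ hpair'
    positivity
  · refine le_trans (le_of_eq ?_) hpair'
    ring

end Pool.Agent.NH99.AL
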