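import Pool.Agent.NH99.AL.Stm

set_option autoImplicit false

/-!
# Project AL, job AL-4: the `L_(1+θ)` norm of the test function
-/

namespace Pool.Agent.NH99.AL

open Finset
open Pool.Agent.H397R2.SD (E E_mono E_add E_const E_smul E_sum E_nonneg)
open Pool.Agent.NH43.AD

namespace Lpd

theorem mem_cells {d : ℕ} {s r : Ce d} : r ∈ cells s ↔ ∀ i, r i ≤ s i := by
  unfold cells
  rw [Fintype.mem_piFinset]
  exact forall_congr' fun i => by rw [mem_range, Nat.lt_succ_iff]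

theorem card_cells_le {d n : ℕ} (s : Ce d) (hs : ∀ i, s i ≤ n) :
    (cells s).card ≤ (n + 1) ^ d := by
  unfold cells
  rw [Fintype.card_piFinset]
  calc ∏ i, (range (s i + 1)).card ≤ ∏ _i : Fin d, (n + 1) := by
        refine prod_le_prod' fun i _ => ?_
        rw [card_range]
        exact Nat.succ_le_succ (hs i)
    _ = (n + 1) ^ d := by rw [prod_const, card_univ, Fintype.card_fin]

theorem good_mono {d m : ℕ} {η : ℕ → ℝ} {X : Fin d → ℕ → ℝ} {y : Ce d → ℝ} {q q' : Ce d}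
    (h : Good m η X y q) (hq : ∀ i, q' i ≤ q i) : Good m η X y q' :=
  fun r hr => h r fun i => (hr i).trans (hq i)

variable {Ω : Type} [Fintype Ω]

/-- Cauchy–Schwarz -/
theorem cs (u v : Ω → ℝ) (hu : ∀ x, 0 ≤ u x) (hv : ∀ x, 0 ≤ v x) :
    E (fun x => Real.sqrt (u x) * Real.sqrt (v x)) ≤ Real.sqrt (E u) * Real.sqrt (E v) := by
  unfold E
  rw [Real.sqrt_div (sum_nonneg fun x _ => hu x), Real.sqrt_div (sum_nonneg fun x _ => hv x),
    div_mul_div_comm, Real.mul_self_sqrt (Nat.cast_nonneg _)]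
  exact div_le_div_of_nonneg_right (Real.sum_sqrt_mul_sqrt_le _ (fun x => hu x) fun x => hv x)
    (Nat.cast_nonneg _)

theorem rpow_split {D θ : ℝ} (hD : 0 ≤ D) (hθ : 0 ≤ θ) :
    D ^ (1 + θ) = Real.sqrt D * Real.sqrt (D ^ (1 + 2 * θ)) := by
  rw [← Real.sqrt_mul hD, ← Real.rpow_one_add' hD (by positivity)]
  rw [Real.sqrt_eq_rpow, ← Real.rpow_mul hD]
  congr 1
  ring

/-- the `L_(1+θ)` norm of a sum of a main term and many small terms -/
theorem core {ι : Type} (F : Finset ι) (a : Ω → ℝ) (t : ι → Ω → ℝ) (Ψ : Ω → ℝ)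
    (ha : ∀ x, 0 ≤ a x) (ht : ∀ i ∈ F, ∀ x, 0 ≤ t i x) (hΨ : ∀ x, |Ψ x| ≤ a x + ∑ i ∈ F, t i x)
    (θ κ e₁ e₂ : ℝ) (hθ : 0 ≤ θ) (h1 : E (fun x => (a x) ^ (1 + θ)) ≤ e₁)
    (h2 : ∀ i ∈ F, E (fun x => t i x) ≤ κ) (h3 : ∀ i ∈ F, E (fun x => (t i x) ^ (1 + 2 * θ)) ≤ e₂)
    (h4 : ((F.card : ℝ) + 1) ^ θ ≤ 2) :
    E (fun x => |Ψ x| ^ (1 + θ)) ≤ 2 * (e₁ + F.card * (Real.sqrt κ * Real.sqrt e₂)) := by
  classical
  have hp1 : (1 : ℝ) ≤ 1 + θ := by linarith
  have hpt : ∀ x, |Ψ x| ^ (1 + θ) ≤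
      ((F.card : ℝ) + 1) ^ θ * ((a x) ^ (1 + θ) + ∑ i ∈ F, (t i x) ^ (1 + θ)) := by
    intro x
    have h5 := Real.rpow_sum_le_const_mul_sum_rpow_of_nonneg (insertNone F)
      (f := fun o : Option ι => o.elim (a x) fun i => t i x) hp1 (by
        intro o ho
        rcases o with _ | i
        · exact ha x
        · exact ht i (by simpa using ho) x)
    rw [add_sub_cancel_left, card_insertNone, sum_insertNone, sum_insertNone] at h5
    push_cast at h5
    refine le_trans (Real.rpow_le_rpow (abs_nonneg _) (hΨ x) (by linarith)) h5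
  refine (E_mono hpt).trans ?_
  have hin : ∀ x, 0 ≤ (a x) ^ (1 + θ) + ∑ i ∈ F, (t i x) ^ (1 + θ) := fun x =>
    add_nonneg (Real.rpow_nonneg (ha x) _) (sum_nonneg fun i hi => Real.rpow_nonneg (ht i hi x) _)
  rw [E_smul, E_add, E_sum]
  have h6 : ∀ i ∈ F, E (fun x => (t i x) ^ (1 + θ)) ≤ Real.sqrt κ * Real.sqrt e₂ := by
    intro i hi
    have e : (fun x => (t i x) ^ (1 + θ)) =
        fun x => Real.sqrt (t i x) * Real.sqrt ((t i x) ^ (1 + 2 * θ)) := by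
      funext x
      exact rpow_split (ht i hi x) hθ
    rw [e]
    refine (cs (fun x => t i x) (fun x => (t i x) ^ (1 + 2 * θ)) (ht i hi)
      fun x => Real.rpow_nonneg (ht i hi x) _).trans ?_
    exact mul_le_mul (Real.sqrt_le_sqrt (h2 i hi)) (Real.sqrt_le_sqrt (h3 i hi))
      (Real.sqrt_nonneg _) (Real.sqrt_nonneg _)
  have h7 : ∑ i ∈ F, E (fun x => (t i x) ^ (1 + θ)) ≤
      F.card * (Real.sqrt κ * Real.sqrt e₂) := by
    refine (sum_le_sum h6).trans ?_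
    rw [sum_const, nsmul_eq_mul]
  have h8 : 0 ≤ E (fun x => (a x) ^ (1 + θ)) + ∑ i ∈ F, E (fun x => (t i x) ^ (1 + θ)) :=
    add_nonneg (E_nonneg fun x => Real.rpow_nonneg (ha x) _)
      (sum_nonneg fun i hi => E_nonneg fun x => Real.rpow_nonneg (ht i hi x) _)
  exact mul_le_mul h4 (add_le_add h1 h7) h8 (by norm_num)

theorem exp_half : Real.exp (1 / 2) ≤ 2 := by
  have h1 : Real.exp (1 / 2) * Real.exp (1 / 2) = Real.exp 1 := by
    rw [← Real.exp_add]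
    norm_num
  have h2 := Real.exp_one_lt_d9
  have h3 := Real.exp_pos (1 / 2)
  nlinarith

end Lpd

open Lpd

open Classical in
theorem t_LPD (h1 : S_PTW) (h2 : S_BEY) (h3 : S_MOMD) : S_LPD := by
  intro d hd
  obtain ⟨CB, hCB1, hCB⟩ := h2 d hd
  refine ⟨8 * CB ^ 2 + 3 * d + 8, by omega, ?_⟩
  intro n m η Ω _ _ T X f ρ κ b θ hy hκ hPF hb hCb hKK hθ0 hθ1 hθb hnθ hbig
  set C : ℕ := 8 * CB ^ 2 + 3 * d + 8 with hC
  have hnn : (0 : ℝ) ≤ n := Nat.cast_nonneg n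
  have hCr : (C : ℝ) = 8 * (CB : ℝ) ^ 2 + 3 * d + 8 := by
    rw [hC]; push_cast; ring
  have hCB1r : (1 : ℝ) ≤ CB := by exact_mod_cast hCB1
  have hd0 : (0 : ℝ) ≤ d := Nat.cast_nonneg d
  have hC1 : (1 : ℝ) ≤ C := by rw [hCr]; nlinarith
  set κ' : ℝ := CB * b with hκ'
  have hκ'0 : 0 ≤ κ' := by positivity
  have hCB2 : 2 * (CB : ℝ) ≤ C := by rw [hCr]; nlinarith
  have hκ'1 : κ' ≤ 1 / 2 := by
    have : 2 * (CB : ℝ) * b ≤ C * b := mul_le_mul_of_nonneg_right hCB2 hb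
    rw [hκ']
    linarith
  have hCBb : (CB : ℝ) * b ≤ 1 := by linarith
  let i₀ : Fin d := ⟨0, by omega⟩
  -- the moments
  have hmom : ∀ (θ' : ℝ) (s : Ce d), 0 ≤ θ' → θ' ≤ 1 → (∀ i, s i ≤ n + 1) →
      E (fun x => (es m η ρ X f s x) ^ (1 + θ')) ≤
        Real.exp (2 * θ' * ((n : ℝ) + 1) * κ' ^ 2) := by
    intro θ' s hθ'0 hθ'1 hs
    refine h3 d n m η Ω T X f ρ κ' θ' s i₀ hd hy hs hκ'0 hκ'1 hθ'0 hθ'1 ?_
    intro x hg hs1 v hv
    set r : Ce d := fun i => if i = i₀ then v else s i - 1 with hr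
    have hup : up ({i₀}ᶜ : Finset (Fin d)) r = Function.update s i₀ v := by
      funext i
      unfold up
      by_cases hi : i = i₀
      · subst hi
        rw [Function.update_self, if_neg (by simp)]
        simp [hr]
      · rw [Function.update_of_ne hi, if_pos (by simpa using hi)]
        have := hs1 i
        simp only [hr, if_neg hi]
        omega
    have hrp : ∀ i, r i ≤ (fun i => s i - 1 : Ce d) i := by
      intro i
      by_cases hi : i = i₀
      · simp only [hr, if_pos hi]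
        rw [hi]
        omega
      · simp only [hr, if_neg hi]
        exact le_rfl
    have h4 := hCB m η (Xx X x) (yx ρ f x) b (fun i v => hy.sgn i v x) hb hCBb
      (fun i => s i - 1) hg (fun S r' hS hr' => by
        refine hKK x r' (fun i => ?_) (good_mono hg hr') S hS
        have := hr' i
        have := hs i
        simp only at *
        omega) {i₀} ({i₀}ᶜ) r (singleton_nonempty _) disjoint_compl_right hrp
    rw [hup] at h4
    exact h4
  have hexp : ∀ θ' : ℝ, 0 ≤ θ' → θ' ≤ 2 * θ → Real.exp (2 * θ' * ((n : ℝ) + 1) * κ' ^ 2) ≤ 2 := by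
    intro θ' h0 h1
    refine le_trans (Real.exp_le_exp.2 ?_) exp_half
    have e1 : 0 ≤ θ * ((n : ℝ) + 1) * b ^ 2 := by positivity
    have e2 : 2 * θ' * ((n : ℝ) + 1) * κ' ^ 2 ≤ 2 * (2 * θ) * ((n : ℝ) + 1) * κ' ^ 2 := by
      have : 0 ≤ ((n : ℝ) + 1) * κ' ^ 2 := by positivity
      nlinarith
    have e3 : 2 * (2 * θ) * ((n : ℝ) + 1) * κ' ^ 2 =
        4 * (CB : ℝ) ^ 2 * (θ * ((n : ℝ) + 1) * b ^ 2) := by
      rw [hκ']; ring
    have e4 : 8 * (CB : ℝ) ^ 2 * (θ * ((n : ℝ) + 1) * b ^ 2) ≤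
        C * (θ * ((n : ℝ) + 1) * b ^ 2) := by
      refine mul_le_mul_of_nonneg_right ?_ e1
      rw [hCr]
      linarith
    have e5 : C * (θ * ((n : ℝ) + 1) * b ^ 2) ≤ 1 := by
      have : (C : ℝ) * θ * ((n : ℝ) + 1) * b ^ 2 = C * (θ * ((n : ℝ) + 1) * b ^ 2) := by ring
      rw [← this]
      exact hθb
    rw [e3] at e2
    linarith
  obtain ⟨hpos, hpt, hE⟩ := h1 d n m η Ω T X f ρ hd hy
  -- the index set
  set F : Finset ((_ : Ce d) × (Finset (Fin d) × Ce d)) :=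
    (cells (fun _ : Fin d => n)).sigma fun p => (univ : Finset (Finset (Fin d))) ×ˢ cells p with hF
  set t : ((_ : Ce d) × (Finset (Fin d) × Ce d)) → Ω → ℝ := fun z x =>
    if Pregood m η (Xx X x) (yx ρ f x) z.2.2 ∧ ¬ Cond m η (Xx X x) (yx ρ f x) z.2.2 then
      es m η ρ X f (up z.2.1 z.1) x else 0 with ht
  have hFm : ∀ z ∈ F, (∀ i, z.1 i ≤ n) ∧ (∀ i, z.2.2 i ≤ z.1 i) := by
    intro z hz
    rw [hF, mem_sigma, mem_product] at hz
    exact ⟨mem_cells.1 hz.1, mem_cells.1 hz.2.2⟩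
  have hupn : ∀ z ∈ F, ∀ i, up z.2.1 z.1 i ≤ n + 1 := by
    intro z hz i
    have := (hFm z hz).1 i
    unfold up
    split_ifs <;> omega
  have hsum : ∀ x, ∑ p ∈ cells (fun _ : Fin d => n), ∑ U : Finset (Fin d), ∑ q ∈ cells p,
      (if Pregood m η (Xx X x) (yx ρ f x) q ∧ ¬ Cond m η (Xx X x) (yx ρ f x) q then
        es m η ρ X f (up U p) x else 0) = ∑ z ∈ F, t z x := by
    intro x
    rw [hF, sum_sigma]
    refine sum_congr rfl fun p _ => ?_
    rw [sum_product]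
  have hcard : (F.card : ℝ) ≤ 2 ^ d * ((n : ℝ) + 1) ^ (2 * d) := by
    have h : F.card ≤ 2 ^ d * (n + 1) ^ (2 * d) := by
      rw [hF, card_sigma]
      calc ∑ p ∈ cells (fun _ : Fin d => n),
            ((univ : Finset (Finset (Fin d))) ×ˢ cells p).card
          ≤ ∑ _p ∈ cells (fun _ : Fin d => n), 2 ^ d * (n + 1) ^ d := by
            refine sum_le_sum fun p hp => ?_
            rw [card_product, card_univ, Fintype.card_finset, Fintype.card_fin]
            exact Nat.mul_le_mul_left _ (card_cells_le p (mem_cells.1 hp))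
        _ = (cells (fun _ : Fin d => n)).card * (2 ^ d * (n + 1) ^ d) := by
            rw [sum_const, smul_eq_mul]
        _ ≤ (n + 1) ^ d * (2 ^ d * (n + 1) ^ d) :=
            Nat.mul_le_mul_right _ (card_cells_le _ fun _ => le_rfl)
        _ = 2 ^ d * (n + 1) ^ (2 * d) := by ring
    exact_mod_cast h
  have hcard2 : (F.card : ℝ) + 1 ≤ ((n : ℝ) + 2) ^ C := by
    have e1 : (2 : ℝ) ^ d ≤ ((n : ℝ) + 2) ^ d := pow_le_pow_left₀ (by norm_num) (by linarith) d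
    have e2 : ((n : ℝ) + 1) ^ (2 * d) ≤ ((n : ℝ) + 2) ^ (2 * d) :=
      pow_le_pow_left₀ (by linarith) (by linarith) _
    have e3 : (2 : ℝ) ^ d * ((n : ℝ) + 1) ^ (2 * d) ≤ ((n : ℝ) + 2) ^ (3 * d) := by
      calc (2 : ℝ) ^ d * ((n : ℝ) + 1) ^ (2 * d) ≤ ((n : ℝ) + 2) ^ d * ((n : ℝ) + 2) ^ (2 * d) :=
            mul_le_mul e1 e2 (by positivity) (by positivity)
        _ = _ := by rw [← pow_add]; congr 1; ring
    have e4 : (1 : ℝ) ≤ ((n : ℝ) + 2) ^ (3 * d) := one_le_pow₀ (by linarith)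
    have e5 : 2 * ((n : ℝ) + 2) ^ (3 * d) ≤ ((n : ℝ) + 2) ^ (3 * d + 1) := by
      rw [pow_succ, mul_comm]
      exact mul_le_mul_of_nonneg_left (by linarith) (by positivity)
    have e6 : ((n : ℝ) + 2) ^ (3 * d + 1) ≤ ((n : ℝ) + 2) ^ C :=
      pow_le_pow_right₀ (by linarith) (by omega)
    linarith
  have hcθ : ((F.card : ℝ) + 1) ^ θ ≤ 2 :=
    (Real.rpow_le_rpow (by positivity) hcard2 hθ0).trans hnθ
  have ht0 : ∀ z ∈ F, ∀ x, 0 ≤ t z x := by
    intro z hz x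
    simp only [ht]
    split_ifs
    · exact hpos _ (hupn z hz) x
    · exact le_rfl
  have hmain := core F (es m η ρ X f (fun _ => n + 1)) t (Psi n m η ρ X f)
    (hpos _ fun _ => le_rfl) ht0 (fun x => by rw [← hsum x]; exact hpt x) θ κ 2 2 hθ0
    ((hmom θ (fun _ => n + 1) hθ0 (by linarith) fun _ => le_rfl).trans
      (hexp θ hθ0 (by linarith)))
    (fun z hz => (hE z.1 z.2.2 (hFm z hz).1 (hFm z hz).2 z.2.1).trans
      (hPF _ fun i => ((hFm z hz).2 i).trans ((hFm z hz).1 i)))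
    (fun z hz => by
      refine le_trans (E_mono fun x => ?_) ((hmom (2 * θ) (up z.2.1 z.1) (by linarith)
        (by linarith) (hupn z hz)).trans (hexp (2 * θ) (by linarith) le_rfl))
      simp only [ht]
      split_ifs
      · exact le_rfl
      · rw [Real.zero_rpow (by linarith)]
        exact Real.rpow_nonneg (hpos _ (hupn z hz) x) _)
    hcθ
  refine hmain.trans ?_
  have hs2 : Real.sqrt 2 ≤ 2 := by
    rw [Real.sqrt_le_left (by norm_num)]
    norm_num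
  have hk : (F.card : ℝ) * Real.sqrt κ ≤ 1 := by
    have e1 : (F.card : ℝ) * Real.sqrt κ ≤ ((n : ℝ) + 2) ^ C * Real.sqrt κ :=
      mul_le_mul_of_nonneg_right (by linarith) (Real.sqrt_nonneg _)
    have e2 : ((n : ℝ) + 2) ^ C * Real.sqrt κ ≤ C * (((n : ℝ) + 2) ^ C * Real.sqrt κ) :=
      le_mul_of_one_le_left (by positivity) hC1
    have e3 : (C : ℝ) * (((n : ℝ) + 2) ^ C * Real.sqrt κ) ≤ 1 := by
      rw [← mul_assoc]
      exact hbig
    linarith
  have hk0 : 0 ≤ (F.card : ℝ) * Real.sqrt κ := by positivity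
  have hk2 : (F.card : ℝ) * (Real.sqrt κ * Real.sqrt 2) ≤ 2 := by
    rw [← mul_assoc]
    calc (F.card : ℝ) * Real.sqrt κ * Real.sqrt 2 ≤ 1 * 2 :=
          mul_le_mul hk hs2 (Real.sqrt_nonneg _) (by norm_num)
      _ = 2 := by norm_num
  linarith

end Pool.Agent.NH99.AL
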