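import Pool.Agent.NH99.AL.Stm
import Pool.Agent.NH99.WZ.Mom

/-!
# Project AL, job AL-3: moments of the stopped densities (helper93)
-/

set_option autoImplicit false

namespace Pool.Agent.NH99.AL

open Finset
open Pool.Agent.H397R2.SD (E)
open Pool.Agent.NH43.AD

namespace Momd

open Pool.Agent.NH99.WZ.Mass (E_invol E_le E_half)
open Pool.Agent.NH99.WZ.Mom (bern E_half' E_const_mul E_one)

variable {d : ℕ}

theorem ex_empty (f : Finset (Fin d) → ℝ) : ex f ∅ = 1 := by
  rw [ex, dif_neg (by simp)]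

theorem ex_single (f : Finset (Fin d) → ℝ) (i : Fin d) : ex f {i} = f {i} := by
  have h1 : ({i} : Finset (Fin d)).powerset = {∅, {i}} := by
    ext B
    simp [Finset.subset_singleton_iff]
  rw [ex, dif_pos (singleton_nonempty i), h1, sum_pair (singleton_ne_empty i).symm]
  simp [ex_empty]

/-- the increment in one direction -/
theorem step (hL : S_LAW) (hd : 2 ≤ d) (X : Fin d → ℕ → ℝ) (y : Ce d → ℝ)
    (hX : ∀ i v, X i v = 1 ∨ X i v = -1) (i : Fin d) (s : Ce d) (h0 : DD y s ≠ 0) :
    |DD y (up {i} s) / DD y s - 1| = |be X y i s| := by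
  have h1 := (hL d X y hd hX).2.2.2.2.2.2.1 {i} s h0
  rw [ex_single, prod_singleton, card_singleton, if_pos rfl] at h1
  rw [h1, mul_div_cancel_left₀ _ h0, add_sub_cancel_right, abs_mul]
  have h2 : |X i (s i)| = 1 := by
    rcases hX i (s i) with h | h <;> rw [h] <;> norm_num
  rw [h2, one_mul]
  rfl

theorem up_update (s : Ce d) (i : Fin d) (v : ℕ) :
    up {i} (Function.update s i v) = Function.update s i (v + 1) := by
  funext j
  unfold up
  by_cases hj : j = i
  · subst hj
    rw [if_pos (mem_singleton_self _), Function.update_self, Function.update_self]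
  · rw [if_neg (by simpa using hj), Function.update_of_ne hj, Function.update_of_ne hj]

variable {Ω : Type}

/-- the conditions at the step `v` -/
def Cd (f : Ce d → Ω → ℝ) (ρ κ : ℝ) (s : Ce d) (i : Fin d) (v : ℕ) (x : Ω) : Prop :=
  DD (yx ρ f x) (Function.update s i v) ≠ 0 ∧
    (∀ q : Ce d, (∀ j, q j + 1 ≤ Function.update s i (v + 1) j) → DD (yx ρ f x) q ≠ 0) ∧
    |DD (yx ρ f x) (Function.update s i (v + 1)) / DD (yx ρ f x) (Function.update s i v) - 1| ≤ κ

open Classical in
/-- the truncated increment -/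
noncomputable def al (f : Ce d → Ω → ℝ) (ρ κ : ℝ) (s : Ce d) (i : Fin d) (v : ℕ) (x : Ω) : ℝ :=
  if Cd f ρ κ s i v x then
    DD (yx ρ f x) (Function.update s i (v + 1)) / DD (yx ρ f x) (Function.update s i v) - 1
  else 0

theorem al_le (f : Ce d → Ω → ℝ) (ρ κ : ℝ) (hκ : 0 ≤ κ) (s : Ce d) (i : Fin d) (v : ℕ) (x : Ω) :
    |al f ρ κ s i v x| ≤ κ := by
  unfold al
  split_ifs with h
  · exact h.2.2
  · rwa [abs_zero]

section pre

variable [Fintype Ω] {n : ℕ} {T : Fin d → ℕ → Ω → Ω} {X : Fin d → ℕ → Ω → ℝ}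
  {f : Ce d → Ω → ℝ}

theorem dd_pre (hP : S_PRE) (hd : 2 ≤ d) (hy : Hyp n T X f) (ρ : ℝ) (q : Ce d) (i : Fin d) (u : ℕ)
    (h : q i ≤ u) (x : Ω) : DD (yx ρ f (T i u x)) q = DD (yx ρ f x) q :=
  (hP d n Ω T X f ρ hd hy).1 q i u h x

/-- later digits -/
theorem al_pre (hP : S_PRE) (hd : 2 ≤ d) (hy : Hyp n T X f) (ρ κ : ℝ) (s : Ce d) (i : Fin d)
    (v u : ℕ) (hvu : v < u) (x : Ω) : al f ρ κ s i v (T i u x) = al f ρ κ s i v x := by
  have h1 : DD (yx ρ f (T i u x)) (Function.update s i v) =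
      DD (yx ρ f x) (Function.update s i v) :=
    dd_pre hP hd hy ρ _ i u (by rw [Function.update_self]; omega) x
  have h2 : DD (yx ρ f (T i u x)) (Function.update s i (v + 1)) =
      DD (yx ρ f x) (Function.update s i (v + 1)) :=
    dd_pre hP hd hy ρ _ i u (by rw [Function.update_self]; omega) x
  have h3 : Cd f ρ κ s i v (T i u x) ↔ Cd f ρ κ s i v x := by
    unfold Cd
    rw [h1, h2]
    refine and_congr_right fun _ => and_congr_left fun _ => ?_
    refine forall_congr' fun q => forall_congr' fun hq => ?_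
    rw [dd_pre hP hd hy ρ q i u (by
      have := hq i
      rw [Function.update_self] at this
      omega) x]
  unfold al
  by_cases h : Cd f ρ κ s i v x
  · rw [if_pos h, if_pos (h3.2 h), h1, h2]
  · rw [if_neg h, if_neg fun h' => h (h3.1 h')]

/-- the digit `v` -/
theorem al_neg (hP : S_PRE) (hd : 2 ≤ d) (hy : Hyp n T X f) (ρ κ : ℝ) (s : Ce d) (i : Fin d)
    (v : ℕ) (x : Ω) : al f ρ κ s i v (T i v x) = -al f ρ κ s i v x := by
  have h1 : DD (yx ρ f (T i v x)) (Function.update s i v) =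
      DD (yx ρ f x) (Function.update s i v) :=
    dd_pre hP hd hy ρ _ i v (by rw [Function.update_self]) x
  have hq : ∀ q : Ce d, (∀ j, q j + 1 ≤ Function.update s i (v + 1) j) →
      DD (yx ρ f (T i v x)) q = DD (yx ρ f x) q := by
    intro q hq
    refine dd_pre hP hd hy ρ q i v ?_ x
    have := hq i
    rw [Function.update_self] at this
    omega
  have h2 : (∀ q : Ce d, (∀ j, q j + 1 ≤ Function.update s i (v + 1) j) →
      DD (yx ρ f x) q ≠ 0) → DD (yx ρ f (T i v x)) (Function.update s i (v + 1)) =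
        2 * DD (yx ρ f x) (Function.update s i v) -
          DD (yx ρ f x) (Function.update s i (v + 1)) := by
    intro h
    have h3 := (hP d n Ω T X f ρ hd hy).2.1 (Function.update s i (v + 1)) i x
      (by rw [Function.update_self]; omega) h
    rw [Function.update_self, Nat.add_sub_cancel, Function.update_idem] at h3
    linarith
  have h4 : (∀ q : Ce d, (∀ j, q j + 1 ≤ Function.update s i (v + 1) j) →
      DD (yx ρ f x) q ≠ 0) → DD (yx ρ f x) (Function.update s i v) ≠ 0 →
      DD (yx ρ f (T i v x)) (Function.update s i (v + 1)) /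
        DD (yx ρ f x) (Function.update s i v) - 1 =
      -(DD (yx ρ f x) (Function.update s i (v + 1)) /
        DD (yx ρ f x) (Function.update s i v) - 1) := by
    intro h h0
    rw [h2 h]
    field_simp
    ring
  by_cases h : Cd f ρ κ s i v x
  · have h' : Cd f ρ κ s i v (T i v x) := by
      refine ⟨by rw [h1]; exact h.1, fun q hq' => by rw [hq q hq']; exact h.2.1 q hq', ?_⟩
      rw [h1, h4 h.2.1 h.1, abs_neg]
      exact h.2.2
    unfold al
    rw [if_pos h, if_pos h', h1, h4 h.2.1 h.1]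
  · have h' : ¬ Cd f ρ κ s i v (T i v x) := by
      rintro ⟨a1, a2, a3⟩
      apply h
      have b1 : DD (yx ρ f x) (Function.update s i v) ≠ 0 := by rwa [h1] at a1
      have b2 : ∀ q : Ce d, (∀ j, q j + 1 ≤ Function.update s i (v + 1) j) →
          DD (yx ρ f x) q ≠ 0 := fun q hq' => by
        have := a2 q hq'
        rwa [hq q hq'] at this
      refine ⟨b1, b2, ?_⟩
      rw [h1, h4 b2 b1, abs_neg] at a3
      exact a3
    unfold al
    rw [if_neg h, if_neg h', neg_zero]

/-- the induction over the digits -/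
theorem steps [Nonempty Ω] (hP : S_PRE) (hd : 2 ≤ d) (hy : Hyp n T X f) (ρ κ θ : ℝ) (s : Ce d)
    (i : Fin d) (hκ0 : 0 ≤ κ) (hκ : κ ≤ 1 / 2) (h0 : 0 ≤ θ) (h1 : θ ≤ 1) :
    ∀ k, E (fun x => ∏ u ∈ range k, (1 + al f ρ κ s i u x) ^ (1 + θ)) ≤
      Real.exp (θ * κ ^ 2) ^ k := by
  intro k
  induction k with
  | zero =>
    simp only [range_zero, prod_empty, pow_zero]
    exact E_one.le
  | succ k ih =>
    have hnn : ∀ x, 0 ≤ ∏ u ∈ range k, (1 + al f ρ κ s i u x) ^ (1 + θ) := by
      intro x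
      refine prod_nonneg fun u _ => Real.rpow_nonneg ?_ _
      have := (abs_le.1 (al_le f ρ κ hκ0 s i u x)).1
      linarith
    have hfix : ∀ x, ∏ u ∈ range k, (1 + al f ρ κ s i u (T i k x)) ^ (1 + θ) =
        ∏ u ∈ range k, (1 + al f ρ κ s i u x) ^ (1 + θ) := by
      intro x
      refine prod_congr rfl fun u hu => ?_
      rw [al_pre hP hd hy ρ κ s i u k (mem_range.1 hu) x]
    rw [E_half' (T i k) (hy.inv i k)]
    refine (E_le _ (fun x => (∏ u ∈ range k, (1 + al f ρ κ s i u x) ^ (1 + θ)) *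
      Real.exp (θ * κ ^ 2)) fun x => ?_).trans ?_
    · simp only [prod_range_succ]
      rw [hfix x, al_neg hP hd hy ρ κ s i k x]
      have hb := bern (al f ρ κ s i k x) θ κ (al_le f ρ κ hκ0 s i k x) hκ h0 h1
      have := mul_le_mul_of_nonneg_left hb (hnn x)
      refine le_trans (le_of_eq ?_) this
      ring
    · rw [E_const_mul, pow_succ]
      exact mul_le_mul_of_nonneg_right ih (Real.exp_pos _).le

end pre

end Momd

open Momd
open Pool.Agent.NH99.WZ.Mass (E_le)
open Pool.Agent.NH99.WZ.Mom (E_one)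

theorem t_MOMD (hL : S_LAW) (hU : S_U) (hPo : S_POS) (hPr : S_PRE) : S_MOMD := by
  classical
  intro d n m η Ω _ _ T X f ρ κ θ s i₀ hd hy hs hκ0 hκ h0 h1 hbe
  have hexp : (1 : ℝ) ≤ Real.exp (2 * θ * ((n : ℝ) + 1) * κ ^ 2) := by
    rw [Real.one_le_exp_iff]
    positivity
  by_cases hz : ∃ i, s i = 0
  · have h2 : ∀ x, es m η ρ X f s x ^ (1 + θ) = 1 := by
      intro x
      unfold es
      rw [if_pos hz, Real.one_rpow]
    simp only [h2]
    rw [E_one]
    exact hexp
  have hs1 : ∀ i, 1 ≤ s i := fun i => Nat.one_le_iff_ne_zero.2 fun h => hz ⟨i, h⟩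
  have hsg : ∀ x, ∀ i v, Xx X x i v = 1 ∨ Xx X x i v = -1 := fun x i v => hy.sgn i v x
  -- the conditions on the good set
  have hcd : ∀ x, Good m η (Xx X x) (yx ρ f x) (fun i => s i - 1) → ∀ v < s i₀,
      Cd f ρ κ s i₀ v x := by
    intro x hG v hv
    have hpos : DD (yx ρ f x) (Function.update s i₀ v) ≠ 0 := by
      obtain ⟨r, hr⟩ : ∃ r : Ce d, r = fun j => if j = i₀ then v else s j - 1 := ⟨_, rfl⟩
      have hr0 : r i₀ = v := by rw [hr]; exact if_pos rfl
      have hrj : ∀ j, j ≠ i₀ → r j = s j - 1 := fun j hj => by rw [hr]; exact if_neg hj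
      have hrle : ∀ j, r j ≤ s j - 1 := by
        intro j
        by_cases hj : j = i₀
        · subst hj
          rw [hr0]
          omega
        · rw [hrj j hj]
      have hc := hG r hrle
      have h2 := ((hPo d (Xx X x) (yx ρ f x) r hd (hsg x) hc.1 hc.2.1).1 (univ.erase i₀)).1
      have h3 : up (univ.erase i₀) r = Function.update s i₀ v := by
        funext j
        unfold up
        by_cases hj : j = i₀
        · subst hj
          rw [if_neg (notMem_erase _ _), hr0, Function.update_self]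
        · rw [if_pos (mem_erase.2 ⟨hj, mem_univ _⟩), hrj j hj, Function.update_of_ne hj]
          have := hs1 j
          omega
      rw [h3] at h2
      have h4 := hc.1
      intro h5
      rw [h5] at h2
      linarith
    refine ⟨hpos, fun q hq => ?_, ?_⟩
    · refine (hG q fun j => ?_).1.ne'
      have h2 := hq j
      show q j ≤ s j - 1
      by_cases hj : j = i₀
      · subst hj
        rw [Function.update_self] at h2
        omega
      · rw [Function.update_of_ne hj] at h2
        omega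
    · have h2 := step hL hd (Xx X x) (yx ρ f x) (hsg x) i₀ (Function.update s i₀ v) hpos
      rw [up_update] at h2
      rw [h2]
      exact hbe x hG hs1 v hv
  -- the product formula
  have hprod : ∀ x, Good m η (Xx X x) (yx ρ f x) (fun i => s i - 1) → ∀ v, v ≤ s i₀ →
      DD (yx ρ f x) (Function.update s i₀ v) = ∏ u ∈ range v, (1 + al f ρ κ s i₀ u x) := by
    intro x hG v
    induction v with
    | zero =>
      intro _
      rw [range_zero, prod_empty]
      exact (hL d (Xx X x) (yx ρ f x) hd (hsg x)).1 _ ⟨i₀, by rw [Function.update_self]⟩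
    | succ v ih =>
      intro hv
      have hc := hcd x hG v (by omega)
      rw [prod_range_succ, ← ih (by omega)]
      unfold al
      rw [if_pos hc, add_sub_cancel, mul_div_cancel₀ _ hc.1]
  have h2 : ∀ x, es m η ρ X f s x ^ (1 + θ) ≤
      ∏ u ∈ range (s i₀), (1 + al f ρ κ s i₀ u x) ^ (1 + θ) := by
    intro x
    have hnn : ∀ u ∈ range (s i₀), 0 ≤ 1 + al f ρ κ s i₀ u x := by
      intro u _
      have := (abs_le.1 (al_le f ρ κ hκ0 s i₀ u x)).1
      linarith
    unfold es
    rw [if_neg hz]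
    split_ifs with hG
    · have h3 := hprod x hG (s i₀) le_rfl
      rw [Function.update_eq_self] at h3
      rw [h3, Real.finsetProd_rpow _ _ hnn]
    · rw [Real.zero_rpow (by linarith)]
      exact prod_nonneg fun u hu => Real.rpow_nonneg (hnn u hu) _
  refine (E_le _ _ h2).trans ((steps hPr hd hy ρ κ θ s i₀ hκ0 hκ h0 h1 (s i₀)).trans ?_)
  rw [← Real.exp_nat_mul]
  apply Real.exp_le_exp.2
  have h3 : (s i₀ : ℝ) ≤ (n : ℝ) + 1 := by exact_mod_cast hs i₀
  have h4 : 0 ≤ θ * κ ^ 2 := mul_nonneg h0 (sq_nonneg κ)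
  have h5 := mul_le_mul_of_nonneg_right h3 h4
  have h6 : 0 ≤ ((n : ℝ) + 1) * (θ * κ ^ 2) := mul_nonneg (by positivity) h4
  have e : 2 * θ * ((n : ℝ) + 1) * κ ^ 2 = 2 * (((n : ℝ) + 1) * (θ * κ ^ 2)) := by ring
  rw [e]
  linarith

end Pool.Agent.NH99.AL
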