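import Pool.Agent.NH99.AL.Stm

set_option autoImplicit false

/-!
# Project AL: choice of the parameters
-/

namespace Pool.Agent.NH99.AL

open Pool.Agent.NH43.AD
open Pool.Agent.NH44.AD (cd rhQ etQ)

namespace Numl

theorem log_ge {T n : ℕ} (h : 2 ^ T ≤ n) : T ≤ Nat.log 2 (n + 2) :=
  Nat.le_log_of_pow_le Nat.one_lt_two (h.trans (Nat.le_add_right n 2))

theorem lt_mm (n : ℕ) : n + 2 < 2 ^ mm n := by
  have h := Nat.lt_pow_succ_log_self (b := 2) Nat.one_lt_two (n + 2)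
  refine h.trans_le ?_
  unfold mm
  exact Nat.pow_le_pow_right (by norm_num) (by omega)

end Numl

open Numl

theorem t_NUML : S_NUML := by
  intro d C A₀ hd hC hA₀
  refine ⟨2 * A₀ + 8 * d + 8, 2 ^ (12 * A₀ + 4 * C + 8), by omega, ?_⟩
  intro n hn Mr hMr hMrN K hK dl b hdl hb
  obtain ⟨A, hA⟩ : ∃ A, A = 2 * A₀ + 8 * d + 8 := ⟨_, rfl⟩
  rw [← hA] at hMrN hK
  obtain ⟨L, hL⟩ : ∃ L : ℝ, L = (mm n : ℝ) + 1 := ⟨_, rfl⟩
  obtain ⟨N, hN⟩ : ∃ N : ℝ, N = (n : ℝ) + 1 := ⟨_, rfl⟩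
  -- sizes
  have hlog := log_ge hn
  have hLn : 12 * A₀ + 4 * C + 8 + 2 ≤ mm n := by unfold mm; omega
  have hLr : 12 * (A₀ : ℝ) + 4 * C + 8 ≤ L := by
    rw [hL]
    have : ((12 * A₀ + 4 * C + 8 + 2 : ℕ) : ℝ) ≤ mm n := by exact_mod_cast hLn
    push_cast at this
    linarith
  have hA₀r : (1 : ℝ) ≤ A₀ := by exact_mod_cast hA₀
  have hCr : (1 : ℝ) ≤ C := by exact_mod_cast hC
  have hL8 : 8 ≤ L := by linarith
  have hL1 : 1 ≤ L := by linarith
  have hL0 : 0 < L := by linarith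
  have hLC : 4 * (C : ℝ) ≤ L := by linarith
  have hLA : (A₀ : ℝ) ≤ L := by linarith
  have hn0 : (0 : ℝ) ≤ n := Nat.cast_nonneg n
  have hN1 : 1 ≤ N := by linarith
  have hN0 : 0 < N := by linarith
  have hMr0 : 0 < Mr := by linarith
  rw [← hL, ← hN] at hMrN
  rw [← hL] at hK
  have hdl' : dl = Real.sqrt (Mr / N) := by rw [hdl, hN]
  have hdl0 : 0 < dl := by
    rw [hdl']
    exact Real.sqrt_pos.2 (by positivity)
  have hdl2 : dl ^ 2 = Mr / N := by
    rw [hdl']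
    exact Real.sq_sqrt (by positivity)
  have hpow : ∀ e : ℕ, 2 * e ≤ A → dl * L ^ e ≤ 1 := by
    intro e he
    have h1 : (dl * L ^ e) ^ 2 ≤ 1 := by
      rw [mul_pow, hdl2, ← pow_mul, mul_comm e 2, div_mul_eq_mul_div, div_le_one hN0]
      exact (mul_le_mul_of_nonneg_left (pow_le_pow_right₀ hL1 he) hMr0.le).trans hMrN
    exact (sq_le_one_iff₀ (by positivity)).1 h1
  have hLA1 : L ^ A ≤ 2 * K + 2 := by
    refine le_trans ?_ hK
    nlinarith [pow_pos hL0 A]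
  have hA1 : 1 ≤ A := by omega
  have hK3 : (8 : ℝ) ≤ 2 * K + 2 := by
    refine le_trans ?_ hLA1
    calc (8 : ℝ) ≤ L ^ 1 := by rw [pow_one]; exact hL8
      _ ≤ L ^ A := pow_le_pow_right₀ hL1 hA1
  have hKr : (3 : ℝ) ≤ K := by linarith
  -- the bound of `b`
  have hAL : 1 ≤ (A₀ : ℝ) * L := by nlinarith
  have hAL2 : (A₀ : ℝ) * L ≤ L ^ 2 := by nlinarith
  have hetQ : ∀ k, etQ d A₀ n dl k = dl * ((A₀ : ℝ) * L) ^ (d - k) := by
    intro k
    unfold etQ
    rw [hL]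
  have hb' : b = (3 * (L + 1)) ^ d * (dl * ((A₀ : ℝ) * L) ^ (d - 1)) := by
    rw [hb, hetQ]
    unfold cd
    rw [hL]
    ring_nf
  have hb0 : 0 ≤ b := by
    rw [hb']
    positivity
  have hbL : b ≤ dl * L ^ (4 * d) := by
    rw [hb']
    have h1 : (3 * (L + 1)) ^ d ≤ (L ^ 2) ^ d := pow_le_pow_left₀ (by positivity) (by nlinarith) _
    have h2 : ((A₀ : ℝ) * L) ^ (d - 1) ≤ (L ^ 2) ^ d :=
      (pow_le_pow_left₀ (by positivity) hAL2 _).trans
        (pow_le_pow_right₀ (one_le_pow₀ hL1) (by omega))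
    calc (3 * (L + 1)) ^ d * (dl * ((A₀ : ℝ) * L) ^ (d - 1))
        ≤ (L ^ 2) ^ d * (dl * (L ^ 2) ^ d) :=
          mul_le_mul h1 (mul_le_mul_of_nonneg_left h2 hdl0.le) (by positivity) (by positivity)
      _ = dl * L ^ (4 * d) := by
          rw [← pow_mul]
          have : 4 * d = 2 * d + 2 * d := by ring
          rw [this, pow_add]
          ring
  have hCL : (C : ℝ) ≤ L := by linarith
  have hCb : (C : ℝ) * b ≤ 1 := by
    calc (C : ℝ) * b ≤ L * (dl * L ^ (4 * d)) := mul_le_mul hCL hbL hb0 hL0.le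
      _ = dl * L ^ (4 * d + 1) := by ring
      _ ≤ 1 := hpow _ (by omega)
  have hrh : rhQ d n dl ≤ dl := by
    unfold rhQ
    rw [← hN]
    have hd2 : (0 : ℝ) ≤ ((d : ℝ) - 2) / 2 := by
      have : (3 : ℝ) ≤ d := by exact_mod_cast hd
      linarith
    have h1 : N ^ (-(((d : ℝ) - 2) / 2)) ≤ 1 :=
      Real.rpow_le_one_of_one_le_of_nonpos hN1 (by linarith)
    nlinarith
  have hrh0 : 0 < rhQ d n dl := by
    unfold rhQ
    rw [← hN]
    exact mul_pos (Real.rpow_pos_of_pos hN0 _) hdl0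
  refine ⟨hdl0, ?_, ?_, hrh0, ?_, ?_, ?_, hb0, hCb, ?_, ?_, ?_, ?_, ?_, ?_⟩
  · rw [← hL]
    exact hpow A₀ (by omega)
  · have := lt_mm n
    omega
  · rw [hetQ]
    refine hrh.trans ?_
    have h1 : 1 ≤ ((A₀ : ℝ) * L) ^ (d - 1) := one_le_pow₀ hAL
    nlinarith
  · calc (C : ℝ) * rhQ d n dl ≤ L * dl := mul_le_mul hCL hrh hrh0.le hL0.le
      _ = dl * L ^ 1 := by ring
      _ ≤ 1 := hpow 1 (by omega)
  · intro k hk1 hkd
    rw [hetQ, hetQ]
    refine ⟨by positivity, mul_le_mul_of_nonneg_left ?_ hdl0.le⟩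
    exact pow_le_pow_right₀ hAL (by omega)
  · rw [div_le_div_iff₀ (by positivity) (by norm_num)]
    linarith
  · have h1 : b ^ 2 ≤ Mr / N * L ^ (8 * d) := by
      calc b ^ 2 ≤ (dl * L ^ (4 * d)) ^ 2 := pow_le_pow_left₀ hb0 hbL 2
        _ = Mr / N * L ^ (8 * d) := by
          rw [mul_pow, hdl2, ← pow_mul]
          congr 2
          ring
    have h2 : (C : ℝ) * N * b ^ 2 ≤ 2 * K + 1 := by
      have h3 : L ^ (8 * d) * L ≤ L ^ A := by
        rw [← pow_succ]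
        exact pow_le_pow_right₀ hL1 (by omega)
      have h4 : Mr * (L ^ (8 * d) * L) ≤ 2 * K + 2 :=
        (mul_le_mul_of_nonneg_left h3 hMr0.le).trans hK
      calc (C : ℝ) * N * b ^ 2 ≤ C * N * (Mr / N * L ^ (8 * d)) :=
            mul_le_mul_of_nonneg_left h1 (by positivity)
        _ = C * (Mr * L ^ (8 * d)) := by field_simp
        _ ≤ (L / 4) * (Mr * L ^ (8 * d)) :=
            mul_le_mul_of_nonneg_right (by linarith) (by positivity)
        _ = Mr * (L ^ (8 * d) * L) / 4 := by ring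
        _ ≤ 2 * K + 1 := by linarith
    have h5 : (0 : ℝ) < 2 * K + 1 := by positivity
    calc (C : ℝ) * (1 / (2 * (K : ℝ) + 1)) * ((n : ℝ) + 1) * b ^ 2
        = (C * N * b ^ 2) / (2 * K + 1) := by rw [hN]; ring
      _ ≤ 1 := by rw [div_le_one h5]; exact h2
  · have h1 : ((n : ℝ) + 2) ≤ 2 ^ (mm n) := by exact_mod_cast (lt_mm n).le
    have h5 : (0 : ℝ) < 2 * K + 1 := by positivity
    have h2 : ((n : ℝ) + 2) ^ C ≤ (2 : ℝ) ^ ((mm n * C : ℕ) : ℝ) := by
      rw [Real.rpow_natCast, pow_mul]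
      exact pow_le_pow_left₀ (by positivity) h1 C
    calc (((n : ℝ) + 2) ^ C) ^ (1 / (2 * (K : ℝ) + 1))
        ≤ ((2 : ℝ) ^ ((mm n * C : ℕ) : ℝ)) ^ (1 / (2 * (K : ℝ) + 1)) :=
          Real.rpow_le_rpow (by positivity) h2 (by positivity)
      _ = (2 : ℝ) ^ (((mm n * C : ℕ) : ℝ) * (1 / (2 * (K : ℝ) + 1))) := by
          rw [← Real.rpow_mul (by norm_num)]
      _ ≤ (2 : ℝ) ^ (1 : ℝ) := by
          apply Real.rpow_le_rpow_of_exponent_le (by norm_num)
          rw [mul_one_div, div_le_one h5]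
          push_cast
          have h6 : (mm n : ℝ) ≤ L := by rw [hL]; linarith
          have h7 : (mm n : ℝ) * C ≤ L * (L / 4) :=
            mul_le_mul h6 (by linarith) (by positivity) hL0.le
          have h8 : L ^ 2 ≤ L ^ A := pow_le_pow_right₀ hL1 (by omega)
          nlinarith
      _ = 2 := Real.rpow_one 2
  · rw [← hN]
    have h1 : ((n : ℝ) + 2) ≤ 2 * N := by rw [hN]; linarith
    have h2 : ((n : ℝ) + 2) ^ C ≤ 2 ^ C * N ^ C := by
      rw [← mul_pow]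
      exact pow_le_pow_left₀ (by positivity) h1 C
    have h3 : Real.sqrt (1 / N ^ (2 * C + d + 4)) ≤ 1 / N ^ (C + 2) := by
      rw [Real.sqrt_le_left (by positivity), div_pow, one_pow, ← pow_mul]
      apply one_div_le_one_div_of_le (by positivity)
      exact pow_le_pow_right₀ hN1 (by omega)
    have h4 : (C : ℝ) * 2 ^ C ≤ N := by
      have h5 : C * 2 ^ C ≤ n := by
        have h6 : C ≤ 2 ^ C := Nat.lt_two_pow_self.le
        calc C * 2 ^ C ≤ 2 ^ C * 2 ^ C := Nat.mul_le_mul_right _ h6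
          _ = 2 ^ (2 * C) := by rw [← pow_add]; congr 1; ring
          _ ≤ 2 ^ (12 * A₀ + 4 * C + 8) := Nat.pow_le_pow_right (by norm_num) (by omega)
          _ ≤ n := hn
      have h7 : (((C * 2 ^ C : ℕ)) : ℝ) ≤ n := by exact_mod_cast h5
      push_cast at h7
      rw [hN]
      linarith
    calc (C : ℝ) * ((n : ℝ) + 2) ^ C * Real.sqrt (1 / N ^ (2 * C + d + 4))
        ≤ (C : ℝ) * (2 ^ C * N ^ C) * (1 / N ^ (C + 2)) :=
          mul_le_mul (mul_le_mul_of_nonneg_left h2 (by positivity)) h3 (Real.sqrt_nonneg _)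
            (by positivity)
      _ = (C * 2 ^ C) * (1 / N ^ 2) := by
          rw [pow_add]
          field_simp
      _ ≤ N * (1 / N ^ 2) := mul_le_mul_of_nonneg_right h4 (by positivity)
      _ = 1 / N := by field_simp
      _ ≤ 1 := by rw [div_le_one hN0]; exact hN1
  · rw [← hN, mul_one_div, div_le_one (by positivity)]
    have h1 : (2 : ℝ) ≤ N := by
      have h2 : 1 ≤ n := le_trans Nat.one_le_two_pow hn
      have h3 : (1 : ℝ) ≤ n := by exact_mod_cast h2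
      rw [hN]
      linarith
    calc 8 * N ^ d ≤ N ^ 4 * N ^ d := by
          apply mul_le_mul_of_nonneg_right _ (by positivity)
          calc (8 : ℝ) ≤ 2 ^ 4 := by norm_num
            _ ≤ N ^ 4 := pow_le_pow_left₀ (by norm_num) h1 4
      _ = N ^ (d + 4) := by ring
      _ ≤ N ^ (2 * C + d + 4) := pow_le_pow_right₀ hN1 (by omega)
  · rw [← hN]
    unfold rhQ
    rw [← hN, hdl', Real.sqrt_div hMr0.le, Real.sqrt_eq_rpow N]
    have h1 : N ^ (d - 1) = N ^ ((d : ℝ) - 1) := by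
      rw [← Real.rpow_natCast, Nat.cast_sub (by omega), Nat.cast_one]
    have h2 : N ^ ((d : ℝ) - 1) * N ^ (-(((d : ℝ) - 2) / 2)) * (N ^ (1 / 2 : ℝ))⁻¹ =
        N ^ (((d : ℝ) - 1) / 2) := by
      rw [← Real.rpow_neg hN0.le, ← Real.rpow_add hN0, ← Real.rpow_add hN0]
      congr 1
      ring
    rw [h1, ← h2]
    ring

end Pool.Agent.NH99.AL
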