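import Pool.Agent.NH99.AL.Ptw
import Pool.Agent.NH99.AL.Bey
import Pool.Agent.NH99.AL.Momd
import Pool.Agent.NH99.AL.Lpd
import Pool.Agent.NH99.AL.Bnd
import Pool.Agent.NH99.AL.Numl
import Pool.Agent.NH99.AL.Gridl
import Pool.Agent.NH99.AL.Finl
import Pool.Agent.NH99.WZ.Hol
import Pool.Agent.NH44.AD.Numq
import Pool.Agent.NH43.AD.All

set_option autoImplicit false

/-!
# Project AL: everything put together (no hypotheses)
-/

namespace Pool.Agent.NH99.AL

open Pool.Agent.NH43.AD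
open Pool.Agent.NH44.AD (S_PFQ t_NUMQ t_PFAQ all_HBT)

theorem all_PFQ : S_PFQ := t_PFAQ all_DTM all_TUP all_UNI t_NUMQ

theorem all_LPD : S_LPD :=
  t_LPD (t_PTW all_LAW all_GPRE all_SUP) (t_BEY all_LAW all_POS all_EXB)
    (t_MOMD all_LAW all_U all_POS all_PRE)

theorem all_GRIDL : S_GRIDL :=
  t_GRIDL all_PFQ all_LPD (t_BND all_LAW all_HBT) all_PAIR t_HYP t_NUML Pool.Agent.NH99.WZ.t_HOL

theorem all_FINL : S_FINL := t_FINL all_GRIDL

end Pool.Agent.NH99.AL
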