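import Pool.Agent.NH99.AL.Stm
import Pool.Agent.NH43.AD.L1

/-!
# Project AL, AL-1: the pointwise bound of the test function

Copied from the proof of `t_L1` (Pool/Agent/NH43/AD/L1.lean), without the bound `κ`.
-/

set_option autoImplicit false

namespace Pool.Agent.NH99.AL

open Finset
open Pool.Agent.H397R2.SD (E)
open Pool.Agent.NH43.AD
open Pool.Agent.NH43.AD.L1

open Classical in
theorem t_PTW (h3 : S_LAW) (h8 : S_GPRE) (h9 : S_SUP) : S_PTW := by
  intro d n m η Ω _ _ T X f ρ hd hH
  have hes1 : ∀ (x : Ω) (s : Ce d), (∃ i, s i = 0) → es m η ρ X f s x = 1 := by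
    intro x s hs
    unfold es
    rw [if_pos hs]
  have hes2 : ∀ (x : Ω) (s : Ce d), ¬ (∃ i, s i = 0) → es m η ρ X f s x =
      if Good m η (Xx X x) (yx ρ f x) (fun i => s i - 1) then DD (yx ρ f x) s else 0 := by
    intro x s hs
    unfold es
    rw [if_neg hs]
  have hDD1 : ∀ (x : Ω) (s : Ce d), (∃ i, s i = 0) → DD (yx ρ f x) s = 1 := by
    intro x s hs
    exact (h3 d (Xx X x) (yx ρ f x) hd (fun i v => hH.sgn i v x)).1 s hs
  have hesnn : ∀ (s : Ce d), (∀ i, s i ≤ n + 1) → ∀ x, 0 ≤ es m η ρ X f s x := fun s hs =>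
    (h9 d n m η Ω T X f ρ hd hH s s (fun _ => le_rfl) hs).1
  have hupn : ∀ p ∈ cells (fun _ : Fin d => n), ∀ U : Finset (Fin d), ∀ i, up U p i ≤ n + 1 :=
    fun p hp U => mem_cells.1 (up_mem hp U)
  -- pointwise
  have hpt : ∀ x, |Psi n m η ρ X f x| ≤ es m η ρ X f (fun _ => n + 1) x +
      ∑ p ∈ cells (fun _ : Fin d => n), ∑ U : Finset (Fin d), ∑ q ∈ cells p,
        if Pregood m η (Xx X x) (yx ρ f x) q ∧ ¬ Cond m η (Xx X x) (yx ρ f x) q then
          es m η ρ X f (up U p) x else 0 := by
    intro x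
    have ht := tele_one n (by omega) (fun s => es m η ρ X f s x) (hes1 x)
    have hPsi : Psi n m η ρ X f x = es m η ρ X f (fun _ => n + 1) x +
        ∑ p ∈ cells (fun _ : Fin d => n), ∑ U : Finset (Fin d), (-1 : ℝ) ^ (d - U.card) *
          ((if Good m η (Xx X x) (yx ρ f x) p then DD (yx ρ f x) (up U p) else 0) -
            es m η ρ X f (up U p) x) := by
      unfold Psi
      have e1 : ∑ p ∈ cells (fun _ : Fin d => n), ∑ U : Finset (Fin d), (-1 : ℝ) ^ (d - U.card) *
          ((if Good m η (Xx X x) (yx ρ f x) p then DD (yx ρ f x) (up U p) else 0) -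
            es m η ρ X f (up U p) x) =
          ∑ p ∈ cells (fun _ : Fin d => n),
            (if Good m η (Xx X x) (yx ρ f x) p then top (yx ρ f x) p else 0) -
          ∑ p ∈ cells (fun _ : Fin d => n), ∑ U : Finset (Fin d), (-1 : ℝ) ^ (d - U.card) *
            es m η ρ X f (up U p) x := by
        rw [← sum_sub_distrib]
        refine sum_congr rfl fun p _ => ?_
        unfold top
        split_ifs with hg
        · rw [← sum_sub_distrib]
          refine sum_congr rfl fun U _ => ?_
          ring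
        · rw [zero_sub, ← sum_neg_distrib]
          refine sum_congr rfl fun U _ => ?_
          ring
      rw [e1, ht]
      ring
    rw [hPsi]
    refine (abs_add_le _ _).trans (add_le_add ?_ ?_)
    · rw [abs_of_nonneg]
      exact hesnn _ (fun _ => le_rfl) x
    · refine (abs_sum_le_sum_abs _ _).trans (sum_le_sum fun p hp => ?_)
      refine (abs_sum_le_sum_abs _ _).trans (sum_le_sum fun U _ => ?_)
      rw [abs_mul, abs_pow, abs_neg, abs_one, one_pow, one_mul]
      have hnn := hesnn (up U p) (hupn p hp U) x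
      have hsum : 0 ≤ ∑ q ∈ cells p,
          if Pregood m η (Xx X x) (yx ρ f x) q ∧ ¬ Cond m η (Xx X x) (yx ρ f x) q then
            es m η ρ X f (up U p) x else 0 := by
        refine sum_nonneg fun q _ => ?_
        split_ifs
        · exact hnn
        · exact le_rfl
      by_cases hg : Good m η (Xx X x) (yx ρ f x) p
      · rw [if_pos hg]
        have e : DD (yx ρ f x) (up U p) = es m η ρ X f (up U p) x := by
          by_cases h0 : ∃ i, up U p i = 0
          · rw [hDD1 x _ h0, hes1 x _ h0]
          · rw [hes2 x _ h0, if_pos]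
            refine good_of_le hg fun i => ?_
            unfold up
            split_ifs <;> omega
        rw [e, sub_self, abs_zero]
        exact hsum
      · rw [if_neg hg, zero_sub, abs_neg, abs_of_nonneg hnn]
        obtain ⟨q, hq, hbad⟩ := exists_bad hg
        have h5 : (if Pregood m η (Xx X x) (yx ρ f x) q ∧ ¬ Cond m η (Xx X x) (yx ρ f x) q then
            es m η ρ X f (up U p) x else 0) ≤ ∑ q ∈ cells p,
          if Pregood m η (Xx X x) (yx ρ f x) q ∧ ¬ Cond m η (Xx X x) (yx ρ f x) q then
            es m η ρ X f (up U p) x else 0 := by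
          refine single_le_sum (f := fun q => if Pregood m η (Xx X x) (yx ρ f x) q ∧
            ¬ Cond m η (Xx X x) (yx ρ f x) q then es m η ρ X f (up U p) x else 0)
            (fun q' _ => ?_) hq
          split_ifs
          · exact hnn
          · exact le_rfl
        rw [if_pos hbad] at h5
        exact h5
  refine ⟨hesnn, hpt, ?_⟩
  intro p q hp hq U
  have hqn : ∀ i, q i ≤ n := fun i => (hq i).trans (hp i)
  have hqu : ∀ i, q i ≤ up U p i := by
    intro i
    have := hq i
    unfold up
    split_ifs <;> omega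
  have h5 := (h9 d n m η Ω T X f ρ hd hH (up U p) q hqu
    (hupn p (mem_cells.2 hp) U)).2.1
    (fun x => Pregood m η (Xx X x) (yx ρ f x) q ∧ ¬ Cond m η (Xx X x) (yx ρ f x) q)
    (fun i v hv x => by
      have := (h8 d n m η Ω T X f ρ hd hH q hqn).2.2 i v hv x
      simp only at this ⊢
      rw [this])
  have e0 : ∀ x, (if Pregood m η (Xx X x) (yx ρ f x) q ∧ ¬ Cond m η (Xx X x) (yx ρ f x) q then
      es m η ρ X f (up U p) x else 0) =
      @ite ℝ (Pregood m η (Xx X x) (yx ρ f x) q ∧ ¬ Cond m η (Xx X x) (yx ρ f x) q)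
        (propDecidable _) (es m η ρ X f (up U p) x) 0 := by
    intro x
    split_ifs <;> rfl
  refine (le_of_eq (congrArg E (funext e0))).trans (h5.trans ?_)
  refine le_of_eq ?_
  unfold PF
  refine congrArg E ?_
  funext x
  split_ifs with hA
  · by_cases h0 : ∃ i, q i = 0
    · rw [hes1 x _ h0, hDD1 x _ h0]
    · rw [hes2 x _ h0, if_pos]
      intro r hr
      refine hA.1 r (fun i => (hr i).trans (Nat.sub_le _ _)) ?_
      rintro rfl
      push Not at h0
      have hd0 : 0 < d := by omega
      have h6 : r ⟨0, hd0⟩ ≤ r ⟨0, hd0⟩ - 1 := hr ⟨0, hd0⟩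
      have h7 := h0 ⟨0, hd0⟩
      omega
  · rfl

end Pool.Agent.NH99.AL
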