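import Pool.Agent.NH44.AD.StmQ

set_option autoImplicit false

/-!
# Project AL: all `L_p` norms in every dimension, statements

The same test function as in project AD with a size `dl = √(Mr / (n + 1))` of the top cumulants gives
the lower bound for the `L_p` norm, `p = Mr * (mm n + 1) ^ A`, by Hölder's inequality.
-/

namespace Pool.Agent.NH99.AL

open Finset MeasureTheory
open Pool.Agent.H397R2.SD (E)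
open Pool.Agent.W776.GD (Om flp rad fE empt)
open Pool.Agent.TH973.SD (discw locD)
open Pool.Agent.NH43.AD
open Pool.Agent.NH44.AD (cd rhQ etQ S_PFQ S_HBT)

/-! ### The `L_(1+θ)` norm of the test function -/

open Classical in
/-- AL-1: the pointwise bound of the test function -/
def S_PTW : Prop := ∀ (d n m : ℕ) (η : ℕ → ℝ) (Ω : Type) [Fintype Ω] [Nonempty Ω]
  (T : Fin d → ℕ → Ω → Ω) (X : Fin d → ℕ → Ω → ℝ) (f : Ce d → Ω → ℝ) (ρ : ℝ), 2 ≤ d →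
  Hyp n T X f →
  (∀ (s : Ce d), (∀ i, s i ≤ n + 1) → ∀ x, 0 ≤ es m η ρ X f s x) ∧
  (∀ x, |Psi n m η ρ X f x| ≤ es m η ρ X f (fun _ => n + 1) x +
    ∑ p ∈ cells (fun _ : Fin d => n), ∑ U : Finset (Fin d), ∑ q ∈ cells p,
      if Pregood m η (Xx X x) (yx ρ f x) q ∧ ¬ Cond m η (Xx X x) (yx ρ f x) q then
        es m η ρ X f (up U p) x else 0) ∧
  (∀ p q : Ce d, (∀ i, p i ≤ n) → (∀ i, q i ≤ p i) → ∀ U : Finset (Fin d),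
    E (fun x => if Pregood m η (Xx X x) (yx ρ f x) q ∧ ¬ Cond m η (Xx X x) (yx ρ f x) q then
      es m η ρ X f (up U p) x else 0) ≤ PF m η ρ X f q)

/-- AL-2: bounds one step beyond a good box -/
def S_BEY : Prop := ∀ d : ℕ, 2 ≤ d → ∃ C : ℕ, 1 ≤ C ∧ ∀ (m : ℕ) (η : ℕ → ℝ)
  (X : Fin d → ℕ → ℝ) (y : Ce d → ℝ) (b : ℝ), (∀ i v, X i v = 1 ∨ X i v = -1) → 0 ≤ b →
  (C : ℝ) * b ≤ 1 → ∀ p : Ce d, Good m η X y p →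
  (∀ (S : Finset (Fin d)) (r : Ce d), S.Nonempty → (∀ i, r i ≤ p i) → |KK X y S r| ≤ b) →
  ∀ (S V : Finset (Fin d)) (r : Ce d), S.Nonempty → Disjoint S V → (∀ i, r i ≤ p i) →
    |KK X y S (up V r)| ≤ C * b

/-- AL-3: moments of the stopped densities -/
def S_MOMD : Prop := ∀ (d n m : ℕ) (η : ℕ → ℝ) (Ω : Type) [Fintype Ω] [Nonempty Ω]
  (T : Fin d → ℕ → Ω → Ω) (X : Fin d → ℕ → Ω → ℝ) (f : Ce d → Ω → ℝ) (ρ κ θ : ℝ) (s : Ce d)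
  (i₀ : Fin d), 2 ≤ d → Hyp n T X f → (∀ i, s i ≤ n + 1) → 0 ≤ κ → κ ≤ 1 / 2 → 0 ≤ θ → θ ≤ 1 →
  (∀ x, Good m η (Xx X x) (yx ρ f x) (fun i => s i - 1) → (∀ i, 1 ≤ s i) → ∀ v < s i₀,
    |be (Xx X x) (yx ρ f x) i₀ (Function.update s i₀ v)| ≤ κ) →
  E (fun x => (es m η ρ X f s x) ^ (1 + θ)) ≤ Real.exp (2 * θ * ((n : ℝ) + 1) * κ ^ 2)

/-- AL-4: the `L_(1+θ)` norm of the test function -/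
def S_LPD : Prop := ∀ d : ℕ, 2 ≤ d → ∃ C : ℕ, 1 ≤ C ∧ ∀ (n m : ℕ) (η : ℕ → ℝ) (Ω : Type)
  [Fintype Ω] [Nonempty Ω] (T : Fin d → ℕ → Ω → Ω) (X : Fin d → ℕ → Ω → ℝ) (f : Ce d → Ω → ℝ)
  (ρ κ b θ : ℝ), Hyp n T X f → 0 ≤ κ → (∀ q : Ce d, (∀ i, q i ≤ n) → PF m η ρ X f q ≤ κ) →
  0 ≤ b → (C : ℝ) * b ≤ 1 →
  (∀ (x : Ω) (p : Ce d), (∀ i, p i ≤ n) → Good m η (Xx X x) (yx ρ f x) p →
    ∀ S : Finset (Fin d), S.Nonempty → |KK (Xx X x) (yx ρ f x) S p| ≤ b) →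
  0 ≤ θ → θ ≤ 1 / 2 → (C : ℝ) * θ * ((n : ℝ) + 1) * b ^ 2 ≤ 1 →
  (((n : ℝ) + 2) ^ C) ^ θ ≤ 2 → (C : ℝ) * ((n : ℝ) + 2) ^ C * Real.sqrt κ ≤ 1 →
  E (fun x => |Psi n m η ρ X f x| ^ (1 + θ)) ≤ 8

/-- AL-5: the cumulants on a good box -/
def S_BND : Prop := ∀ (d n m : ℕ) (η : ℕ → ℝ) (X : Fin d → ℕ → ℝ) (y : Ce d → ℝ) (ρ h : ℝ),
  2 ≤ d → n < 2 ^ m → (∀ i v, X i v = 1 ∨ X i v = -1) → (∀ r, |y r| ≤ ρ) → ρ ≤ h →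
  (∀ k, 1 ≤ k → k ≤ d → 0 < η k ∧ η k ≤ h) → ∀ p : Ce d, (∀ i, p i ≤ n) → Good m η X y p →
  ∀ S : Finset (Fin d), S.Nonempty → |KK X y S p| ≤ cd d m * h

/-! ### Parameters and assembly -/

/-- AL-6: choice of the parameters -/
def S_NUML : Prop := ∀ d C A₀ : ℕ, 3 ≤ d → 1 ≤ C → 1 ≤ A₀ → ∃ A n₀ : ℕ, 1 ≤ A ∧
  ∀ n : ℕ, n₀ ≤ n → ∀ Mr : ℝ, 1 ≤ Mr → Mr * ((mm n : ℝ) + 1) ^ A ≤ (n : ℝ) + 1 →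
  ∀ K : ℕ, Mr * ((mm n : ℝ) + 1) ^ A ≤ 2 * K + 2 → ∀ dl b : ℝ,
  dl = Real.sqrt (Mr / ((n : ℝ) + 1)) → b = cd d (mm n) * etQ d A₀ n dl 1 →
    0 < dl ∧ dl * ((mm n : ℝ) + 1) ^ A₀ ≤ 1 ∧ n < 2 ^ mm n ∧ 0 < rhQ d n dl ∧
    rhQ d n dl ≤ etQ d A₀ n dl 1 ∧ (C : ℝ) * rhQ d n dl ≤ 1 ∧
    (∀ k, 1 ≤ k → k ≤ d → 0 < etQ d A₀ n dl k ∧ etQ d A₀ n dl k ≤ etQ d A₀ n dl 1) ∧
    0 ≤ b ∧ (C : ℝ) * b ≤ 1 ∧ 1 / (2 * (K : ℝ) + 1) ≤ 1 / 2 ∧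
    (C : ℝ) * (1 / (2 * (K : ℝ) + 1)) * ((n : ℝ) + 1) * b ^ 2 ≤ 1 ∧
    (((n : ℝ) + 2) ^ C) ^ (1 / (2 * (K : ℝ) + 1)) ≤ 2 ∧
    (C : ℝ) * ((n : ℝ) + 2) ^ C * Real.sqrt (1 / ((n : ℝ) + 1) ^ (2 * C + d + 4)) ≤ 1 ∧
    8 * ((n : ℝ) + 1) ^ d * (1 / ((n : ℝ) + 1) ^ (2 * C + d + 4)) ≤ 1 ∧
    ((n : ℝ) + 1) ^ (d - 1) * rhQ d n dl =
      Real.sqrt Mr * ((n : ℝ) + 1) ^ (((d : ℝ) - 1) / 2)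

/-- AL-7: the main statement on the grid, all even exponents -/
def S_GRIDL : Prop := ∀ d : ℕ, 3 ≤ d → ∃ c : ℝ, 0 < c ∧ ∃ A n₀ : ℕ, 1 ≤ A ∧ ∀ n : ℕ, n₀ ≤ n →
  ∀ Mr : ℝ, 1 ≤ Mr → Mr * ((mm n : ℝ) + 1) ^ A ≤ (n : ℝ) + 1 →
  ∀ K : ℕ, Mr * ((mm n : ℝ) + 1) ^ A ≤ 2 * K + 2 →
  ∀ (ι : Type) (P : Finset ι) (w : ι → ℝ) (V : ℝ) (o : ι → Fin d → ℕ) (u : Fin d → ℝ),
    2 * P.card ≤ 2 ^ n → (2 : ℝ) ^ n ≤ 4 * V → V ≤ 2 ^ n →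
    1 ≤ E (fun x : Om d n => (discw P w V o u x /
      (c * (Real.sqrt Mr * ((n : ℝ) + 1) ^ (((d : ℝ) - 1) / 2)))) ^ (2 * K + 2))

/-- AL-8: the final statement -/
def S_FINL : Prop := ∀ d : ℕ, 3 ≤ d → ∃ c : ℝ, 0 < c ∧ ∃ A : ℕ, ∀ m : ℕ, 3 ≤ m →
  ∀ p : ENNReal, 1 ≤ p → ∀ (lam : Fin m → ℝ) (ξ : Fin m → Fin d → ℝ),
    (∀ μ, ξ μ ∈ Set.Icc (0 : Fin d → ℝ) 1) →
    ENNReal.ofReal (c * (Real.log m) ^ (((d : ℝ) - 1) / 2) /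
        (m * (1 + Real.log (Real.log m)) ^ A)) *
        min (p ^ (1 / 2 : ℝ)) (ENNReal.ofReal ((Real.log m) ^ (1 / 2 : ℝ))) ≤
      eLpNorm (locD lam ξ) p (volume.restrict (Set.Icc (0 : Fin d → ℝ) 1))

end Pool.Agent.NH99.AL
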